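import Mathlib

/-! Poincare inequalities for sums of independent random vectors: the martingale of the gradient. -/

set_option autoImplicit false

namespace Pool.Agent.J4H10.KC

open MeasureTheory Set Filter Topology ProbabilityTheory
open scoped ENNReal InnerProductSpace

variable {E : Type} [NormedAddCommGroup E] [InnerProductSpace ℝ E] [FiniteDimensional ℝ E]
  [MeasurableSpace E] [BorelSpace E]

/-- test functions: `C¹`, bounded, with bounded gradient -/
structure Tst (f : E → ℝ) : Prop where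
  diff : ContDiff ℝ 1 f
  bdd : ∃ B : ℝ, ∀ x, |f x| ≤ B
  grad : ∃ L : ℝ, ∀ x, ‖fderiv ℝ f x‖ ≤ L

/-- the gradient -/
noncomputable def gr (f : E → ℝ) (x : E) : E := (InnerProductSpace.toDual ℝ E).symm (fderiv ℝ f x)

theorem gr_inner (f : E → ℝ) (x u : E) : ⟪gr f x, u⟫_ℝ = fderiv ℝ f x u := by
  unfold gr
  rw [InnerProductSpace.toDual_symm_apply]

theorem gr_norm (f : E → ℝ) (x : E) : ‖gr f x‖ = ‖fderiv ℝ f x‖ := by
  unfold gr
  rw [LinearIsometryEquiv.norm_map]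

theorem gr_cont {f : E → ℝ} (hf : ContDiff ℝ 1 f) : Continuous (gr f) :=
  (InnerProductSpace.toDual ℝ E).symm.continuous.comp (hf.continuous_fderiv one_ne_zero)

/-- bounded continuous functions are integrable -/
theorem int_bc {G : Type} [NormedAddCommGroup G] {Ω : Type} [TopologicalSpace Ω]
    [MeasurableSpace Ω] [BorelSpace Ω] [SecondCountableTopologyEither Ω G] (ν : Measure Ω)
    [IsProbabilityMeasure ν] {g : Ω → G} (hc : Continuous g) {B : ℝ} (hB : ∀ x, ‖g x‖ ≤ B) :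
    Integrable g ν :=
  Integrable.of_bound hc.aestronglyMeasurable B (Eventually.of_forall hB)

theorem fd_tr (f : E → ℝ) (x y : E) : fderiv ℝ (fun y => f (x + y)) y = fderiv ℝ f (x + y) :=
  fderiv_comp_add_left x

/-- the average over `y` of `g (x + y)` is continuous in `x` -/
theorem avg_cont {G : Type} [NormedAddCommGroup G] [NormedSpace ℝ G] (ν : Measure E)
    [IsProbabilityMeasure ν] {g : E → G} (hc : Continuous g) {B : ℝ} (hB : ∀ x, ‖g x‖ ≤ B) :
    Continuous fun x => ∫ y, g (x + y) ∂ν := by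
  refine continuous_of_dominated (bound := fun _ => B) (fun x => ?_) (fun x => ?_)
    (integrable_const B) ?_
  · exact (hc.comp (continuous_const.add continuous_id)).aestronglyMeasurable
  · exact Eventually.of_forall fun y => hB _
  · exact Eventually.of_forall fun y => hc.comp (continuous_id.add continuous_const)

theorem avg_bdd {G : Type} [NormedAddCommGroup G] [NormedSpace ℝ G] (ν : Measure E)
    [IsProbabilityMeasure ν] {g : E → G} {B : ℝ} (hB : ∀ x, ‖g x‖ ≤ B) (x : E) :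
    ‖∫ y, g (x + y) ∂ν‖ ≤ B := by
  have h := norm_integral_le_of_norm_le_const (μ := ν) (f := fun y => g (x + y)) (C := B)
    (Eventually.of_forall fun y => hB _)
  simpa using h

theorem avg_fderiv (ν : Measure E) [IsProbabilityMeasure ν] {f : E → ℝ} (hf : Tst f) (x : E) :
    HasFDerivAt (fun x => ∫ y, f (x + y) ∂ν) (∫ y, fderiv ℝ f (x + y) ∂ν) x := by
  obtain ⟨B, hB⟩ := hf.bdd
  obtain ⟨L, hL⟩ := hf.grad
  have hd := hf.diff.differentiable one_ne_zero
  have hc := hf.diff.continuous_fderiv one_ne_zero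
  refine hasFDerivAt_integral_of_dominated_of_fderiv_le (F := fun x y => f (x + y))
    (F' := fun x y => fderiv ℝ f (x + y)) (bound := fun _ => L) (s := univ) univ_mem ?_ ?_ ?_ ?_
    (integrable_const L) ?_
  · exact Eventually.of_forall fun x =>
      (hf.diff.continuous.comp (continuous_const.add continuous_id)).aestronglyMeasurable
  · exact int_bc ν (hf.diff.continuous.comp (continuous_const.add continuous_id))
      (fun y => hB (x + y))
  · exact (hc.comp (continuous_const.add continuous_id)).aestronglyMeasurable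
  · exact Eventually.of_forall fun y z _ => hL _
  · refine Eventually.of_forall fun y z _ => ?_
    have h1 : HasFDerivAt f (fderiv ℝ f (z + y)) (z + y) := (hd _).hasFDerivAt
    exact (hasFDerivAt_comp_add_right y).2 h1

theorem avg_tst (ν : Measure E) [IsProbabilityMeasure ν] {f : E → ℝ} (hf : Tst f) :
    Tst fun x => ∫ y, f (x + y) ∂ν := by
  obtain ⟨B, hB⟩ := hf.bdd
  obtain ⟨L, hL⟩ := hf.grad
  have e : fderiv ℝ (fun x => ∫ y, f (x + y) ∂ν) = fun x => ∫ y, fderiv ℝ f (x + y) ∂ν :=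
    funext fun x => (avg_fderiv ν hf x).fderiv
  refine ⟨?_, ⟨B, fun x => avg_bdd ν (g := f) hB x⟩, ⟨L, fun x => ?_⟩⟩
  · rw [contDiff_one_iff_fderiv]
    refine ⟨fun x => (avg_fderiv ν hf x).differentiableAt, ?_⟩
    rw [e]
    exact avg_cont ν (hf.diff.continuous_fderiv one_ne_zero) hL
  · rw [e]
    exact avg_bdd ν hL x

theorem avg_gr (ν : Measure E) [IsProbabilityMeasure ν] {f : E → ℝ} (hf : Tst f) (x : E) :
    gr (fun x => ∫ y, f (x + y) ∂ν) x = ∫ y, gr f (x + y) ∂ν := by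
  obtain ⟨L, hL⟩ := hf.grad
  have hcg : Continuous fun y => gr f (x + y) :=
    (gr_cont hf.diff).comp (continuous_const.add continuous_id)
  have ig : Integrable (fun y => gr f (x + y)) ν :=
    int_bc ν hcg (B := L) fun y => by rw [gr_norm]; exact hL _
  have hcd : Continuous fun y => fderiv ℝ f (x + y) :=
    (hf.diff.continuous_fderiv one_ne_zero).comp (continuous_const.add continuous_id)
  have idd : Integrable (fun y => fderiv ℝ f (x + y)) ν := int_bc ν hcd fun y => hL _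
  refine ext_inner_right ℝ fun u => ?_
  rw [gr_inner, (avg_fderiv ν hf x).fderiv, ContinuousLinearMap.integral_apply idd,
    real_inner_comm, ← integral_inner ig]
  refine integral_congr_ae (Eventually.of_forall fun y => ?_)
  simp only
  rw [real_inner_comm, gr_inner]

/-- **The inequality.** `Var f ≤ α ∫ B(∇f, ∇f) + β Var(∇f)` -/
def RR (α β : ℝ) (B : E →L[ℝ] E →L[ℝ] ℝ) (ν : Measure E) : Prop :=
  ∀ f : E → ℝ, Tst f → ∫ x, f x ^ 2 ∂ν - (∫ x, f x ∂ν) ^ 2 ≤
    α * ∫ x, B (gr f x) (gr f x) ∂ν + β * (∫ x, ‖gr f x‖ ^ 2 ∂ν - ‖∫ x, gr f x ∂ν‖ ^ 2)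

/-- Jensen's inequality for a nonnegative quadratic form -/
theorem jensen {Ω : Type} [MeasurableSpace Ω] (ν : Measure Ω) [IsProbabilityMeasure ν]
    (B : E →L[ℝ] E →L[ℝ] ℝ) (hB : ∀ u, 0 ≤ B u u) {g : Ω → E} (hg : Integrable g ν)
    (hg2 : Integrable (fun x => B (g x) (g x)) ν) :
    B (∫ x, g x ∂ν) (∫ x, g x ∂ν) ≤ ∫ x, B (g x) (g x) ∂ν := by
  obtain ⟨m, hm⟩ : ∃ m, m = ∫ x, g x ∂ν := ⟨_, rfl⟩
  rw [← hm]
  have i1 : Integrable (fun x => B m (g x)) ν := (B m).integrable_comp hg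
  have i2 : Integrable (fun x => B (g x) m) ν := by
    have := (B.flip m).integrable_comp hg
    exact this
  have e1 : ∫ x, B m (g x) ∂ν = B m m := by
    rw [(B m).integral_comp_comm hg, ← hm]
  have e2 : ∫ x, B (g x) m ∂ν = B m m := by
    have h1 : ∫ x, B (g x) m ∂ν = ∫ x, B.flip m (g x) ∂ν := rfl
    rw [h1, (B.flip m).integral_comp_comm hg, ← hm]
    rfl
  have h0 : 0 ≤ ∫ x, (B (g x) (g x) - B m (g x) - B (g x) m + B m m) ∂ν := by
    refine integral_nonneg fun x => ?_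
    have h1 := hB (g x - m)
    have h2 : B (g x - m) (g x - m) = B (g x) (g x) - B m (g x) - B (g x) m + B m m := by
      simp only [map_sub, sub_apply]
      ring
    rw [h2] at h1
    exact h1
  have h3 : ∫ x, (B (g x) (g x) - B m (g x) - B (g x) m + B m m) ∂ν =
      ∫ x, B (g x) (g x) ∂ν - B m m - B m m + B m m := by
    have j1 : Integrable (fun x => B (g x) (g x) - B m (g x)) ν := hg2.sub i1
    have j2 : Integrable (fun x => B (g x) (g x) - B m (g x) - B (g x) m) ν := j1.sub i2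
    rw [integral_add j2 (integrable_const _), integral_sub j1 i2, integral_sub hg2 i1, e1, e2]
    simp
  rw [h3] at h0
  linarith

/-- the law of the sum of two independent vectors -/
noncomputable def cv (ν₁ ν₂ : Measure E) : Measure E := (ν₁.prod ν₂).map fun p => p.1 + p.2

theorem cv_prob (ν₁ ν₂ : Measure E) [IsProbabilityMeasure ν₁] [IsProbabilityMeasure ν₂] :
    IsProbabilityMeasure (cv ν₁ ν₂) :=
  Measure.isProbabilityMeasure_map (by fun_prop)

theorem int_cv {G : Type} [NormedAddCommGroup G] [NormedSpace ℝ G] [CompleteSpace G]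
    [SecondCountableTopology G] (ν₁ ν₂ : Measure E)
    [IsProbabilityMeasure ν₁] [IsProbabilityMeasure ν₂] {g : E → G} (hc : Continuous g) {B : ℝ}
    (hB : ∀ x, ‖g x‖ ≤ B) : ∫ x, g x ∂(cv ν₁ ν₂) = ∫ x, ∫ y, g (x + y) ∂ν₂ ∂ν₁ := by
  unfold cv
  rw [integral_map (by fun_prop) hc.aestronglyMeasurable, integral_prod]
  exact int_bc _ (hc.comp (continuous_fst.add continuous_snd)) fun p => hB _

theorem RR.cv {α β : ℝ} (hα : 0 ≤ α) {B₁ B₂ : E →L[ℝ] E →L[ℝ] ℝ} (hB₁ : ∀ u, 0 ≤ B₁ u u)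
    {ν₁ ν₂ : Measure E} [IsProbabilityMeasure ν₁] [IsProbabilityMeasure ν₂]
    (h₁ : RR α β B₁ ν₁) (h₂ : RR α β B₂ ν₂) : RR α β (B₁ + B₂) (KC.cv ν₁ ν₂) := by
  intro f hf
  obtain ⟨B, hB⟩ := hf.bdd
  obtain ⟨L, hL⟩ := hf.grad
  have hB0 : 0 ≤ B := (abs_nonneg _).trans (hB 0)
  have hL0 : 0 ≤ L := (norm_nonneg _).trans (hL 0)
  have hLg : ∀ x, ‖gr f x‖ ≤ L := fun x => by rw [gr_norm]; exact hL x
  have cf := hf.diff.continuous
  have cg := gr_cont hf.diff
  -- bounded continuous functions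
  have bq : ∀ (Q : E →L[ℝ] E →L[ℝ] ℝ) (u : E), ‖u‖ ≤ L → ‖Q u u‖ ≤ ‖Q‖ * L * L := by
    intro Q u hu
    calc ‖Q u u‖ ≤ ‖Q u‖ * ‖u‖ := (Q u).le_opNorm u
      _ ≤ (‖Q‖ * ‖u‖) * ‖u‖ := mul_le_mul_of_nonneg_right (Q.le_opNorm u) (norm_nonneg _)
      _ ≤ (‖Q‖ * L) * L := by gcongr
  have cq : ∀ Q : E →L[ℝ] E →L[ℝ] ℝ, Continuous fun x => Q (gr f x) (gr f x) := fun Q =>
    (Q.continuous.comp cg).clm_apply cg
  have cf2 : Continuous fun x => f x ^ 2 := cf.pow 2
  have bf2 : ∀ x, ‖f x ^ 2‖ ≤ B ^ 2 := fun x => by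
    rw [Real.norm_eq_abs, abs_pow]; exact pow_le_pow_left₀ (abs_nonneg _) (hB x) 2
  have cg2 : Continuous fun x => ‖gr f x‖ ^ 2 := cg.norm.pow 2
  have bg2 : ∀ x, ‖‖gr f x‖ ^ 2‖ ≤ L ^ 2 := fun x => by
    rw [Real.norm_eq_abs, abs_pow, abs_norm]; exact pow_le_pow_left₀ (norm_nonneg _) (hLg x) 2
  have bfn : ∀ x, ‖f x‖ ≤ B := hB
  -- the average
  obtain ⟨F, hF⟩ : ∃ F : E → ℝ, F = fun x => ∫ y, f (x + y) ∂ν₂ := ⟨_, rfl⟩
  have tF : Tst F := by rw [hF]; exact avg_tst ν₂ hf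
  have gF : ∀ x, gr F x = ∫ y, gr f (x + y) ∂ν₂ := fun x => by rw [hF]; exact avg_gr ν₂ hf x
  have bF : ∀ x, ‖F x‖ ≤ B := fun x => by rw [hF]; exact avg_bdd ν₂ bfn x
  have bgF : ∀ x, ‖gr F x‖ ≤ L := fun x => by rw [gF]; exact avg_bdd ν₂ hLg x
  have cF := tF.diff.continuous
  have cgF := gr_cont tF.diff
  -- the translates
  have tr : ∀ x, Tst fun y => f (x + y) := fun x => by
    refine ⟨hf.diff.comp (contDiff_const.add contDiff_id), ⟨B, fun y => hB _⟩, ⟨L, fun y => ?_⟩⟩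
    rw [fd_tr]
    exact hL _
  have gtr : ∀ x y, gr (fun y => f (x + y)) y = gr f (x + y) := fun x y => by
    unfold gr
    rw [fd_tr]
  -- integrals for the convolution
  rw [int_cv ν₁ ν₂ cf2 bf2, int_cv ν₁ ν₂ cf bfn, int_cv ν₁ ν₂ cg2 bg2, int_cv ν₁ ν₂ cg hLg,
    int_cv ν₁ ν₂ (cq (B₁ + B₂)) (fun x => bq _ _ (hLg x))]
  -- integrability of the averages
  have iA2 := int_bc ν₁ (avg_cont ν₂ cf2 bf2) (avg_bdd ν₂ bf2)
  have iF2 : Integrable (fun x => F x ^ 2) ν₁ := int_bc ν₁ (cF.pow 2) (B := B ^ 2) fun x => by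
    rw [norm_pow]; exact pow_le_pow_left₀ (norm_nonneg _) (bF x) 2
  have iG2 := int_bc ν₁ (avg_cont ν₂ cg2 bg2) (avg_bdd ν₂ bg2)
  have igF2 : Integrable (fun x => ‖gr F x‖ ^ 2) ν₁ :=
    int_bc ν₁ (cgF.norm.pow 2) (B := L ^ 2) fun x => by
      rw [norm_pow, norm_norm]; exact pow_le_pow_left₀ (norm_nonneg _) (bgF x) 2
  have iQ : ∀ Q : E →L[ℝ] E →L[ℝ] ℝ,
      Integrable (fun x => ∫ y, Q (gr f (x + y)) (gr f (x + y)) ∂ν₂) ν₁ := fun Q =>
    int_bc ν₁ (avg_cont ν₂ (cq Q) (fun x => bq Q _ (hLg x))) (avg_bdd ν₂ fun x => bq Q _ (hLg x))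
  have iD : Integrable (fun x => (∫ y, ‖gr f (x + y)‖ ^ 2 ∂ν₂) - ‖gr F x‖ ^ 2) ν₁ := iG2.sub igF2
  -- the inequality for `ν₂`
  have k2 : ∫ x, ((∫ y, f (x + y) ^ 2 ∂ν₂) - F x ^ 2) ∂ν₁ ≤
      ∫ x, (α * (∫ y, B₂ (gr f (x + y)) (gr f (x + y)) ∂ν₂) +
        β * ((∫ y, ‖gr f (x + y)‖ ^ 2 ∂ν₂) - ‖gr F x‖ ^ 2)) ∂ν₁ := by
    refine integral_mono (iA2.sub iF2) ?_ fun x => ?_
    · exact ((iQ B₂).const_mul α).add (iD.const_mul β)
    · have := h₂ _ (tr x)
      simp only [gtr] at this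
      rw [gF x, hF]
      exact this
  rw [integral_sub iA2 iF2, integral_add ((iQ B₂).const_mul α) (iD.const_mul β),
    integral_const_mul, integral_const_mul, integral_sub iG2 igF2] at k2
  -- the inequality for `ν₁`
  have k1 := h₁ F tF
  -- Jensen
  have k3 : ∫ x, B₁ (gr F x) (gr F x) ∂ν₁ ≤
      ∫ x, (∫ y, B₁ (gr f (x + y)) (gr f (x + y)) ∂ν₂) ∂ν₁ := by
    refine integral_mono ?_ (iQ B₁) fun x => ?_
    · exact int_bc ν₁ ((B₁.continuous.comp cgF).clm_apply cgF) fun x => bq B₁ _ (bgF x)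
    · simp only
      rw [gF x]
      refine jensen ν₂ B₁ hB₁ ?_ ?_
      · exact int_bc ν₂ (cg.comp (continuous_const.add continuous_id)) fun y => hLg _
      · exact int_bc ν₂ ((cq B₁).comp (continuous_const.add continuous_id))
          fun y => bq B₁ _ (hLg (x + y))
  have k4 : ∫ x, (∫ y, (B₁ + B₂) (gr f (x + y)) (gr f (x + y)) ∂ν₂) ∂ν₁ =
      ∫ x, (∫ y, B₁ (gr f (x + y)) (gr f (x + y)) ∂ν₂) ∂ν₁ +
      ∫ x, (∫ y, B₂ (gr f (x + y)) (gr f (x + y)) ∂ν₂) ∂ν₁ := by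
    rw [← integral_add (iQ B₁) (iQ B₂)]
    refine integral_congr_ae (Eventually.of_forall fun x => ?_)
    simp only [add_apply]
    refine integral_add ?_ ?_
    · exact int_bc ν₂ ((cq B₁).comp (continuous_const.add continuous_id))
          fun y => bq B₁ _ (hLg (x + y))
    · exact int_bc ν₂ ((cq B₂).comp (continuous_const.add continuous_id))
          fun y => bq B₂ _ (hLg (x + y))
  have k5 : ∫ x, F x ∂ν₁ = ∫ x, (∫ y, f (x + y) ∂ν₂) ∂ν₁ := by rw [hF]
  have k6 : ∫ x, gr F x ∂ν₁ = ∫ x, (∫ y, gr f (x + y) ∂ν₂) ∂ν₁ :=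
    integral_congr_ae (Eventually.of_forall gF)
  rw [k5, k6] at k1
  rw [k4]
  have k7 := mul_le_mul_of_nonneg_left k3 hα
  nlinarith [k1, k2, k7]

end Pool.Agent.J4H10.KC
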