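import Pool.Agent.J4H10.KC.Main
import Pool.Agent.N73.KM.Wst
import Pool.Agent.N697.KM.BWC
import Pool.Agent.N426.KM.Rev
import Pool.Agent.N385.KM.BWG
import Pool.Agent.N334.KM.WMC
import Pool.Agent.N438.KM.LWC
import Pool.Agent.N232.KM.PRW
import Pool.Agent.Y429.RG.MINKM

/-! The isoperimetric inequality for densities with Poincare inequalities for all linear images. -/

set_option autoImplicit false

namespace Pool.Agent.J4H10.KC

open MeasureTheory Set Filter Topology ProbabilityTheory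
open scoped ENNReal InnerProductSpace
open Pool.Agent.W695.KH (Eu)
open Pool.Agent.Y506.RG (pm Adm EW VW Star pm_int pm_prob)
open Pool.Agent.Y506.PV (CcW LCn)
open Pool.Agent.N483.KM (LW S_BWC S_WST)

theorem bwc : S_BWC := Pool.Agent.N697.KM.t_BWC Pool.Agent.N426.KM.Rev.t_REV
  Pool.Agent.N232.KM.t_PRW Pool.Agent.N232.KM.t_CUBE Pool.Agent.N385.KM.t_BWG
  Pool.Agent.N334.KM.t_WMC

theorem wst : S_WST := Pool.Agent.N73.KM.t_WST bwc Pool.Agent.N385.KM.t_BWG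
  Pool.Agent.N334.KM.t_WMC

/-- log-concave densities -/
theorem lw_mk {n : ℕ} {w : Eu (Fin n) → ℝ} (h0 : ∀ x, 0 ≤ w x) (h1 : LCn w)
    (h2 : UpperSemicontinuous w) (h4 : 0 < ∫ x, w x) : LW w :=
  Pool.Agent.N438.KM.t_LWC n w ⟨h0, Pool.Agent.Y506.PV.int_moment h0 h2.measurable h1 h4, h4,
    h2.measurable⟩ h1 h2

theorem var_pm {n : ℕ} {w : Eu (Fin n) → ℝ} (h : Adm w) (v : Eu (Fin n) → ℝ) (hv : Measurable v)
    (K : ℝ) (hK : ∀ x, |v x| ≤ K * (1 + ‖x‖)) : variance v (pm w) = VW w v := by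
  have hp := pm_prob h
  obtain ⟨i1, i2⟩ := Pool.Agent.Y506.RG.lin_int h v hv K hK
  have hL2 : MemLp v 2 (pm w) := by
    rw [memLp_two_iff_integrable_sq hv.aestronglyMeasurable]
    exact Pool.Agent.Y506.RG.pm_integrable h _ i2
  rw [variance_eq_sub hL2]
  unfold VW
  rw [← pm_int h, ← pm_int h]
  rfl

theorem var_lin {n k : ℕ} {w : Eu (Fin n) → ℝ} (h : Adm w) (P : Eu (Fin n) →ₗ[ℝ] Eu (Fin k))
    (θ : Eu (Fin k)) : variance (fun x => ⟪P x, θ⟫_ℝ) (pm w) = VW w fun x => ⟪P x, θ⟫_ℝ := by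
  have hP : Continuous P := P.continuous_of_finiteDimensional
  refine var_pm h _ (by fun_prop) (‖LinearMap.toContinuousLinearMap P‖ * ‖θ‖) fun x => ?_
  refine (abs_real_inner_le_norm _ _).trans ?_
  have h1 := (LinearMap.toContinuousLinearMap P).le_opNorm x
  calc ‖P x‖ * ‖θ‖ ≤ ‖LinearMap.toContinuousLinearMap P‖ * ‖x‖ * ‖θ‖ :=
        mul_le_mul_of_nonneg_right h1 (norm_nonneg _)
    _ ≤ ‖LinearMap.toContinuousLinearMap P‖ * ‖θ‖ * (1 + ‖x‖) := by
        nlinarith [mul_nonneg (norm_nonneg (LinearMap.toContinuousLinearMap P)) (norm_nonneg θ)]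

theorem var_bdd {n k : ℕ} {w : Eu (Fin n) → ℝ} (h : Adm w) (P : Eu (Fin n) →ₗ[ℝ] Eu (Fin k))
    (v : Eu (Fin k) → ℝ) (hv : Continuous v) (hv1 : ∀ y, |v y| ≤ 1) :
    variance (fun x => v (P x)) (pm w) = VW w fun x => v (P x) := by
  have hP : Continuous P := P.continuous_of_finiteDimensional
  refine var_pm h _ (by fun_prop) 1 fun x => ?_
  rw [one_mul]
  linarith [hv1 (P x), norm_nonneg x]

/-- concentration from the Poincare inequality -/
theorem cc_of_poi {A δ : ℝ} (hA : 0 < A) (hδ : 0 < δ) {n : ℕ} {w : Eu (Fin n) → ℝ} (hw : Adm w)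
    (h : Poi A (pm w) (pm w)) : CcW (Real.sqrt (δ / A)) δ w := by
  intro k hk T s hs hvar v hv hv1 hvl
  obtain ⟨B, hB⟩ : ∃ B : ℝ, B = max 1 (Real.sqrt (δ / A) / Real.sqrt s) := ⟨_, rfl⟩
  have h1 := h k T s hs (fun θ hθ => by rw [var_lin hw]; exact hvar θ hθ) v B hv
    (fun y => (hv1 y).trans (by rw [hB]; exact le_max_left _ _))
    (fun y => (hvl y).trans (by rw [hB]; exact le_max_right _ _))
  rw [var_bdd hw T v hv.continuous hv1, pm_int hw] at h1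
  have hT : Continuous T := T.continuous_of_finiteDimensional
  have hfc : Continuous (fderiv ℝ v) := hv.continuous_fderiv one_ne_zero
  have h2 : EW w (fun x => ‖fderiv ℝ v (T x)‖ ^ 2) ≤ δ / A / s := by
    have h3 : ∀ x, ‖fderiv ℝ v (T x)‖ ^ 2 ≤ δ / A / s := by
      intro x
      have h4 := pow_le_pow_left₀ (norm_nonneg _) (hvl (T x)) 2
      rw [div_pow, Real.sq_sqrt (by positivity), Real.sq_sqrt hs.le] at h4
      exact h4
    unfold EW
    rw [div_le_iff₀ hw.pos, ← integral_const_mul]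
    refine integral_mono ?_ (hw.one.const_mul _) fun x =>
      mul_le_mul_of_nonneg_right (h3 x) (hw.nonneg x)
    refine hw.bdd _ (by fun_prop) (δ / A / s) fun x => ?_
    rw [abs_of_nonneg (by positivity)]
    exact h3 x
  have h5 : A * s * (δ / A / s) = δ := by
    field_simp
  have h6 := mul_le_mul_of_nonneg_left h2 (by positivity : 0 ≤ A * s)
  linarith

/-- half sets -/
theorem half_of_poi (κ : ℝ) (hκ : 0 < κ) : ∃ c : ℝ, 0 < c ∧ ∀ (m : ℕ) (w : Eu (Fin m) → ℝ),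
    LW w → Poi κ (pm w) (pm w) → ∀ (n : ℕ) (L : Eu (Fin m) →ₗ[ℝ] Eu (Fin n))
    (μ : Measure (Eu (Fin n))), μ = Measure.map L (pm w) → IsProbabilityMeasure μ ∧ ∀ σ : ℝ, 0 < σ →
    (∀ θ : Eu (Fin n), ‖θ‖ = 1 → variance (fun x => ⟪x, θ⟫_ℝ) μ ≤ σ) →
    ∀ S : Set (Eu (Fin n)), μ S = 1 / 2 → ENNReal.ofReal (c / Real.sqrt σ) ≤
      liminf (fun ε : ℝ => (μ (Metric.thickening ε S) - μ S) / ENNReal.ofReal ε) (𝓝[>] 0) := by
  obtain ⟨δ, hδ, G⟩ := wst
  obtain ⟨c, hc, H⟩ := G (Real.sqrt (δ / κ)) (Real.sqrt_pos.2 (by positivity))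
  refine ⟨1 / (4 * c), by positivity, fun m w hw hp n L μ hμ => ?_⟩
  have h3 := H m w hw (cc_of_poi hκ hδ hw.adm hp)
  exact Pool.Agent.Y506.RG.half_of_star Pool.Agent.Y429.RG.minkm hw.adm c hc h3 n L μ hμ

end Pool.Agent.J4H10.KC
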