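import Pool.Agent.J4H10.KC.Main
import Pool.Agent.J4H8.OC.Bus
import Pool.Agent.J4H8.OC.Mkl
import Pool.Agent.J4H57.OC.A4

/-! The isoperimetric inequality for all measurable sets and all linear images of log-concave densities
with Poincare inequalities for all linear images. -/

set_option autoImplicit false

namespace Pool.Agent.J4H10.KC

open MeasureTheory Set Filter Topology ProbabilityTheory
open scoped ENNReal NNReal InnerProductSpace
open Pool.Agent.W695.KH (Eu Sm)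
open Pool.Agent.Y506.RG (pm Adm EW VW pm_int pm_prob pm_integrable EW_aff)
open Pool.Agent.Y506.PV (LCn)
open Pool.Agent.J4H58.OC (LDn)

/-- from directions of length one to all directions -/
theorem var_hom {E : Type} [MeasurableSpace E] {n : ℕ} {ν : Measure E} (X : E → Eu (Fin n)) {σ : ℝ}
    (h : ∀ θ : Eu (Fin n), ‖θ‖ = 1 → variance (fun x => ⟪X x, θ⟫_ℝ) ν ≤ σ) (θ : Eu (Fin n)) :
    variance (fun x => ⟪X x, θ⟫_ℝ) ν ≤ σ * ‖θ‖ ^ 2 := by
  rcases eq_or_ne θ 0 with rfl | hθ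
  · simp only [inner_zero_right, norm_zero]
    have e : variance (fun _ : E => (0:ℝ)) ν = 0 := variance_zero ν
    rw [e]
    simp
  · have h0 : ‖θ‖ ≠ 0 := norm_ne_zero_iff.2 hθ
    have h1 := h (‖θ‖⁻¹ • θ) (by rw [norm_smul, norm_inv, norm_norm, inv_mul_cancel₀ h0])
    have e : (fun x => ⟪X x, θ⟫_ℝ) = fun x => ‖θ‖ * ⟪X x, ‖θ‖⁻¹ • θ⟫_ℝ := by
      funext x
      rw [real_inner_smul_right, ← mul_assoc, mul_inv_cancel₀ h0, one_mul]
    rw [e, variance_const_mul, mul_comm]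
    exact mul_le_mul_of_nonneg_right h1 (sq_nonneg _)

/-- the density of the image under a linear bijection -/
theorem dens_map {m : ℕ} {w : Eu (Fin m) → ℝ} (hA : Adm w) (hl : LCn w)
    (Q : Eu (Fin m) ≃L[ℝ] Eu (Fin m)) : ∃ ρ : Eu (Fin m) → ℝ, LDn ρ ∧
    ∀ v : Eu (Fin m) → ℝ, ∫ y, v y * ρ y = ∫ x, v (Q x) ∂(pm w) := by
  obtain ⟨w1, hw1⟩ : ∃ w1 : Eu (Fin m) → ℝ, w1 = fun y => w (Q.symm y) := ⟨_, rfl⟩
  have hw : ∀ x, w x = 1 * w1 (Q (x - 0)) := by
    intro x
    rw [hw1, one_mul]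
    simp
  have hEW := fun v => EW_aff Q 0 1 one_pos w w1 hw v
  have s0 : ∀ y, 0 ≤ w1 y := fun y => by rw [hw1]; exact hA.nonneg _
  have sm : Measurable w1 := by
    rw [hw1]
    exact hA.meas.comp Q.symm.continuous.measurable
  have sl : LCn w1 := by
    intro x y t ht0 ht1
    rw [hw1]
    simp only
    rw [map_add, map_smul, map_smul]
    exact hl _ _ t ht0 ht1
  have sp : 0 < ∫ y, w1 y := by
    obtain ⟨κ, hκ, hint⟩ := Pool.Agent.Y506.RG.int_lin Q
    have h3 := hint w1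
    have h4 : (fun y => w1 (Q y)) = w := by
      funext y
      rw [hw1]
      simp
    rw [h4] at h3
    have h5 := hA.pos
    rw [h3] at h5
    exact (mul_pos_iff_of_pos_left hκ).1 h5
  have sA : Adm w1 := ⟨s0, Pool.Agent.Y506.PV.int_moment s0 sm sl sp, sp, sm⟩
  obtain ⟨c, hc⟩ : ∃ c : ℝ, c = (∫ x, w1 x)⁻¹ := ⟨_, rfl⟩
  have hc0 : 0 < c := by rw [hc]; exact inv_pos.2 sp
  refine ⟨fun x => c * w1 x, ⟨fun x => mul_nonneg hc0.le (s0 x), measurable_const.mul sm,
    fun x y t ht0 ht1 => ?_, sA.one.const_mul c, ?_⟩, fun v => ?_⟩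
  · rw [Real.mul_rpow hc0.le (s0 x), Real.mul_rpow hc0.le (s0 y)]
    have h3 : c ^ (1 - t) * c ^ t = c := by
      rw [← Real.rpow_add hc0, sub_add_cancel, Real.rpow_one]
    calc c ^ (1 - t) * w1 x ^ (1 - t) * (c ^ t * w1 y ^ t) =
        (c ^ (1 - t) * c ^ t) * (w1 x ^ (1 - t) * w1 y ^ t) := by ring
      _ ≤ _ := by
        rw [h3]
        exact mul_le_mul_of_nonneg_left (sl x y t ht0 ht1) hc0.le
  · rw [integral_const_mul, hc, inv_mul_cancel₀ sp.ne']
  · rw [pm_int hA, hEW fun x => v (Q x)]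
    unfold EW
    have e1 : ∫ y, v y * (c * w1 y) = c * ∫ y, v y * w1 y := by
      rw [← integral_const_mul]
      refine integral_congr_ae (Eventually.of_forall fun y => ?_)
      simp only
      ring
    rw [e1, hc, inv_mul_eq_div]
    congr 1
    refine integral_congr_ae (Eventually.of_forall fun y => ?_)
    simp

/-- the isoperimetric inequality for linear bijections -/
theorem iso_bij {κ : ℝ} (hκ : 0 < κ) {m : ℕ} (hm : 1 ≤ m) {w : Eu (Fin m) → ℝ} (hA : Adm w)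
    (hl : LCn w) (hp : Poi κ (pm w) (pm w)) (Q : Eu (Fin m) ≃L[ℝ] Eu (Fin m)) {σ : ℝ} (hσ : 0 < σ)
    (hvar : ∀ θ : Eu (Fin m), ‖θ‖ = 1 → variance (fun x => ⟪Q x, θ⟫_ℝ) (pm w) ≤ σ)
    (S : Set (Eu (Fin m))) (hS : MeasurableSet S) :
    Measure.map Q (pm w) S * (1 - Measure.map Q (pm w) S) ≤
      ENNReal.ofReal (4 * Real.sqrt (κ * σ)) * liminf (fun ε : ℝ =>
        (Measure.map Q (pm w) (Metric.thickening ε S) - Measure.map Q (pm w) S) /
          ENNReal.ofReal ε) (𝓝[>] 0) := by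
  obtain ⟨ρ, hρ, hint⟩ := dens_map hA hl Q
  have hpr := pm_prob hA
  have hQc : Continuous Q := Q.continuous
  have hQm : Measurable Q := hQc.measurable
  have hpq : IsProbabilityMeasure (Measure.map Q (pm w)) :=
    Measure.isProbabilityMeasure_map hQm.aemeasurable
  have hbus := Pool.Agent.J4H8.OC.t_BUS Pool.Agent.J4H57.OC.t_APX m ρ hm hρ (κ * σ)
    (mul_pos hκ hσ) (by
      intro v hv hv1 ⟨L, hL⟩
      have h1 := hp m (Q : Eu (Fin m) →L[ℝ] Eu (Fin m)).toLinearMap σ hσ hvar v (max 1 L) hv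
        (fun y => (hv1 y).trans (le_max_left _ _)) (fun y => (hL y).trans (le_max_right _ _))
      have mv : MemLp (fun x => v (Q x)) 2 (pm w) :=
        MemLp.of_bound (hv.continuous.comp hQc).aestronglyMeasurable 1
          (Eventually.of_forall fun x => hv1 _)
      have e1 : variance (fun x => v (Q x)) (pm w) =
          (∫ x, v (Q x) ^ 2 ∂(pm w)) - (∫ x, v (Q x) ∂(pm w)) ^ 2 := by
        rw [variance_eq_sub mv]
        rfl
      rw [hint fun y => v y ^ 2, hint v, hint fun y => ‖fderiv ℝ v y‖ ^ 2, ← e1]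
      exact h1)
  refine Pool.Agent.J4H8.OC.t_MKL (Fin m) (Measure.map Q (pm w)) (4 * Real.sqrt (κ * σ))
    (by have := mul_pos hκ hσ; positivity) (fun f L M hf hf1 => ?_) S hS
  have h1 := hbus f L M hf hf1
  have cf : Continuous f := hf.diff.continuous
  have cf2 : Continuous fun x => f x ^ 2 := cf.pow 2
  have cg : Continuous fun x => ‖fderiv ℝ f x‖ := (hf.diff.continuous_fderiv one_ne_zero).norm
  rw [integral_map hQm.aemeasurable cf2.aestronglyMeasurable,
    integral_map hQm.aemeasurable cf.aestronglyMeasurable,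
    integral_map hQm.aemeasurable cg.aestronglyMeasurable]
  rwa [hint fun y => f y ^ 2, hint f, hint fun y => ‖fderiv ℝ f y‖] at h1

/-- `Var (A + B) ≤ 2 Var A + 2 Var B` -/
theorem var_sum_le {E : Type} [MeasurableSpace E] {ν : Measure E} [IsProbabilityMeasure ν]
    {A B : E → ℝ} (hA : MemLp A 2 ν) (hB : MemLp B 2 ν) :
    variance (A + B) ν ≤ 2 * variance A ν + 2 * variance B ν := by
  have h1 := variance_add hA hB
  have h2 := variance_sub hA hB
  have h3 := variance_nonneg (A - B) ν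
  linarith

/-- second moments -/
theorem memLp_id {m : ℕ} {w : Eu (Fin m) → ℝ} (hA : Adm w) :
    MemLp (fun z : Eu (Fin m) => z) 2 (pm w) := by
  have m1 : AEStronglyMeasurable (fun z : Eu (Fin m) => z) (pm w) := aestronglyMeasurable_id
  rw [memLp_two_iff_integrable_sq_norm m1]
  refine pm_integrable hA _ (hA.of_bd _ (continuous_norm.pow 2).measurable 1 fun x => ?_)
  rw [abs_of_nonneg (sq_nonneg _), one_mul]
  linarith

/-- a linear bijection which expands more than `L` and with variances at most `4 σ` -/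
theorem bij_var {m n : ℕ} {w : Eu (Fin m) → ℝ} (hA : Adm w) (L : Eu (Fin m) →ₗ[ℝ] Eu (Fin n))
    {σ : ℝ} (hσ : 0 < σ)
    (hvar : ∀ θ : Eu (Fin n), ‖θ‖ = 1 → variance (fun x => ⟪L x, θ⟫_ℝ) (pm w) ≤ σ) :
    ∃ Q : Eu (Fin m) ≃L[ℝ] Eu (Fin m), (∀ x, ‖L x‖ ≤ ‖Q x‖) ∧
      ∀ θ : Eu (Fin m), ‖θ‖ = 1 → variance (fun x => ⟪Q x, θ⟫_ℝ) (pm w) ≤ 4 * σ := by
  have hpr := pm_prob hA
  have mz := memLp_id hA
  have ml : ∀ u : Eu (Fin m), MemLp (fun x : Eu (Fin m) => ⟪x, u⟫_ℝ) 2 (pm w) :=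
    fun u => mz.inner_const u
  obtain ⟨L', hL'⟩ : ∃ L' : Eu (Fin m) →L[ℝ] Eu (Fin n), ∀ x, L' x = L x :=
    ⟨LinearMap.toContinuousLinearMap L, fun x => rfl⟩
  have mL : ∀ θ : Eu (Fin n), MemLp (fun x : Eu (Fin m) => ⟪L x, θ⟫_ℝ) 2 (pm w) := by
    intro θ
    have h3 : MemLp (fun x : Eu (Fin m) => L' x) 2 (pm w) := L'.comp_memLp' mz
    have h4 : MemLp (fun x : Eu (Fin m) => ⟪L' x, θ⟫_ℝ) 2 (pm w) := h3.inner_const θ
    have e : (fun x : Eu (Fin m) => ⟪L' x, θ⟫_ℝ) = fun x => ⟪L x, θ⟫_ℝ := by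
      funext x
      rw [hL']
    rwa [e] at h4
  obtain ⟨M, hM, hMv⟩ : ∃ M : ℝ, 0 < M ∧ ∀ u : Eu (Fin m), ‖u‖ = 1 →
      variance (fun x : Eu (Fin m) => ⟪x, u⟫_ℝ) (pm w) ≤ M := by
    refine ⟨(∫ x, ‖x‖ ^ 2 ∂(pm w)) + 1, ?_, fun u hu => ?_⟩
    · have : 0 ≤ ∫ x, ‖x‖ ^ 2 ∂(pm w) := integral_nonneg fun x => sq_nonneg _
      linarith
    · have h1 : variance (fun x : Eu (Fin m) => ⟪x, u⟫_ℝ) (pm w) ≤ ∫ x, ⟪x, u⟫_ℝ ^ 2 ∂(pm w) :=
        variance_le_expectation_sq (ml u).aestronglyMeasurable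
      have h2 : ∫ x, ⟪x, u⟫_ℝ ^ 2 ∂(pm w) ≤ ∫ x, ‖x‖ ^ 2 ∂(pm w) := by
        refine integral_mono (ml u).integrable_sq
          ((memLp_two_iff_integrable_sq_norm mz.aestronglyMeasurable).1 mz) fun x => ?_
        simp only
        rw [← sq_abs]
        have h5 := abs_real_inner_le_norm x u
        rw [hu, mul_one] at h5
        exact pow_le_pow_left₀ (abs_nonneg _) h5 2
      linarith
  obtain ⟨ε, hε⟩ : ∃ ε : ℝ, ε = Real.sqrt (σ / M) := ⟨_, rfl⟩
  have hε0 : 0 < ε := by rw [hε]; exact Real.sqrt_pos.2 (div_pos hσ hM)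
  have hεM : ε ^ 2 * M = σ := by
    rw [hε, Real.sq_sqrt (div_pos hσ hM).le, div_mul_cancel₀ _ hM.ne']
  obtain ⟨Q, hQ⟩ := exists_Q L hε0
  refine ⟨Q, fun x => ?_, fun θ hθ => ?_⟩
  · have h2 : ‖L x‖ ^ 2 ≤ ‖Q x‖ ^ 2 := by
      have : 0 ≤ ε ^ 2 * ‖x‖ ^ 2 := by positivity
      have := hQ x
      linarith
    exact (pow_le_pow_iff_left₀ (norm_nonneg _) (norm_nonneg _) two_ne_zero).1 h2
  · obtain ⟨u, hu⟩ : ∃ u, u = Q.symm θ := ⟨_, rfl⟩
    have hQu : Q u = θ := by rw [hu, ContinuousLinearEquiv.apply_symm_apply]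
    have hpol : ∀ x, ⟪Q x, θ⟫_ℝ = ⟪L x, L u⟫_ℝ + ε ^ 2 * ⟪x, u⟫_ℝ := by
      intro x
      have h1 := hQ (x + u)
      have h2 := hQ x
      have h3 := hQ u
      rw [map_add, map_add, norm_add_sq_real, norm_add_sq_real, norm_add_sq_real, hQu] at h1
      rw [hQu] at h3
      linarith
    have hun : ‖L u‖ ^ 2 + ε ^ 2 * ‖u‖ ^ 2 = 1 := by
      have h3 := hQ u
      rw [hQu, hθ] at h3
      linarith
    have e1 : (fun x => ⟪Q x, θ⟫_ℝ) = (fun x => ⟪L x, L u⟫_ℝ) + fun x => ε ^ 2 * ⟪x, u⟫_ℝ := by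
      funext x
      exact hpol x
    have h4 := var_sum_le (mL (L u)) ((ml u).const_mul (ε ^ 2))
    rw [variance_const_mul] at h4
    have h5 := var_hom (fun x => L x) hvar (L u)
    have h6 := var_hom (fun x : Eu (Fin m) => x) hMv u
    rw [e1]
    refine h4.trans ?_
    have h7 : σ * ‖L u‖ ^ 2 ≤ σ := by
      have : ‖L u‖ ^ 2 ≤ 1 := by
        have : 0 ≤ ε ^ 2 * ‖u‖ ^ 2 := by positivity
        linarith
      nlinarith
    have h8 : (ε ^ 2) ^ 2 * variance (fun x : Eu (Fin m) => ⟪x, u⟫_ℝ) (pm w) ≤ σ := by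
      calc (ε ^ 2) ^ 2 * variance (fun x : Eu (Fin m) => ⟪x, u⟫_ℝ) (pm w) ≤
          (ε ^ 2) ^ 2 * (M * ‖u‖ ^ 2) := mul_le_mul_of_nonneg_left h6 (by positivity)
        _ = σ * (ε ^ 2 * ‖u‖ ^ 2) := by rw [← hεM]; ring
        _ ≤ σ * 1 := by
          refine mul_le_mul_of_nonneg_left ?_ hσ.le
          have := sq_nonneg ‖L u‖
          linarith
        _ = σ := mul_one σ
    linarith

theorem min_le_two {a : ℝ≥0∞} (ha : a ≤ 1) : min a (1 - a) ≤ 2 * (a * (1 - a)) := by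
  have ha' : a ≠ ⊤ := ne_top_of_le_ne_top ENNReal.one_ne_top ha
  obtain ⟨x, rfl⟩ : ∃ x : ℝ≥0, a = x := ⟨a.toNNReal, (ENNReal.coe_toNNReal ha').symm⟩
  have hx : x ≤ 1 := by exact_mod_cast ha
  obtain ⟨y, hy⟩ : ∃ y : ℝ≥0, x + y = 1 := ⟨1 - x, add_tsub_cancel_of_le hx⟩
  have e : (1 : ℝ≥0∞) - x = y := by
    rw [← ENNReal.coe_one, ← hy, ENNReal.coe_add, ENNReal.add_sub_cancel_left ENNReal.coe_ne_top]
  rw [e]
  have h : min x y ≤ 2 * (x * y) := by
    have hy' : (x : ℝ) + y = 1 := by exact_mod_cast hy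
    have hx0 : (0 : ℝ) ≤ x := x.2
    have hy0 : (0 : ℝ) ≤ y := y.2
    rcases le_total x y with h1 | h1
    · rw [min_eq_left h1]
      have h1' : (x : ℝ) ≤ y := by exact_mod_cast h1
      have : (x : ℝ) ≤ 2 * (x * y) := by nlinarith
      exact_mod_cast this
    · rw [min_eq_right h1]
      have h1' : (y : ℝ) ≤ x := by exact_mod_cast h1
      have : (y : ℝ) ≤ 2 * (x * y) := by nlinarith
      exact_mod_cast this
  exact_mod_cast h

/-- **all measurable sets, all linear images** -/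
theorem full_of_poi (κ : ℝ) (hκ : 0 < κ) (m : ℕ) (w : Eu (Fin m) → ℝ) (hA : Adm w) (hl : LCn w)
    (hp : Poi κ (pm w) (pm w)) (n : ℕ) (L : Eu (Fin m) →ₗ[ℝ] Eu (Fin n))
    (μ : Measure (Eu (Fin n))) (hμ : μ = Measure.map L (pm w)) : IsProbabilityMeasure μ ∧
    ∀ σ : ℝ, 0 < σ → (∀ θ : Eu (Fin n), ‖θ‖ = 1 → variance (fun x => ⟪x, θ⟫_ℝ) μ ≤ σ) →
    ∀ S : Set (Eu (Fin n)), MeasurableSet S →
      ENNReal.ofReal (1 / (16 * Real.sqrt κ) / Real.sqrt σ) * min (μ S) (μ Sᶜ) ≤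
      liminf (fun ε : ℝ => (μ (Metric.thickening ε S) - μ S) / ENNReal.ofReal ε) (𝓝[>] 0) := by
  have hpr := pm_prob hA
  have hLc : Continuous L := L.continuous_of_finiteDimensional
  have hLm : Measurable L := hLc.measurable
  have hprob : IsProbabilityMeasure μ := by
    rw [hμ]
    exact Measure.isProbabilityMeasure_map hLm.aemeasurable
  refine ⟨hprob, fun σ hσ hvar S hS => ?_⟩
  rw [prob_compl_eq_one_sub hS]
  obtain ⟨b, hb⟩ : ∃ b : ℝ≥0∞, b = liminf (fun ε : ℝ =>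
    (μ (Metric.thickening ε S) - μ S) / ENNReal.ofReal ε) (𝓝[>] 0) := ⟨_, rfl⟩
  rw [← hb]
  have key : μ S * (1 - μ S) ≤ ENNReal.ofReal (8 * Real.sqrt (κ * σ)) * b := by
    rcases Nat.eq_zero_or_pos m with hm0 | hm
    · subst hm0
      have h1 : μ S = 0 ∨ μ S = 1 := by
        rw [hμ, Measure.map_apply hLm hS]
        rcases eq_empty_or_nonempty (L ⁻¹' S) with h | h
        · left
          rw [h, measure_empty]
        · right
          rw [Subsingleton.eq_univ_of_nonempty h, measure_univ]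
      rcases h1 with h1 | h1 <;> simp [h1]
    · have hvar' : ∀ θ : Eu (Fin n), ‖θ‖ = 1 → variance (fun x => ⟪L x, θ⟫_ℝ) (pm w) ≤ σ := by
        intro θ hθ
        have h1 := hvar θ hθ
        rw [hμ] at h1
        have h2 : variance (fun x => ⟪x, θ⟫_ℝ) (Measure.map L (pm w)) =
            variance (fun x => ⟪L x, θ⟫_ℝ) (pm w) := by
          rw [variance_map (by fun_prop) hLm.aemeasurable]
          rfl
        rwa [h2] at h1
      obtain ⟨Q, hQL, hQv⟩ := bij_var hA L hσ hvar'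
      have hQm : Measurable Q := Q.continuous.measurable
      obtain ⟨SQ, hSQ⟩ : ∃ SQ : Set (Eu (Fin m)), SQ = Q.symm ⁻¹' (L ⁻¹' S) := ⟨_, rfl⟩
      have hSQm : MeasurableSet SQ := by
        rw [hSQ]
        exact Q.symm.continuous.measurable (hLm hS)
      have h3 := iso_bij hκ hm hA hl hp Q (by positivity : 0 < 4 * σ) hQv SQ hSQm
      have hpre : Q ⁻¹' SQ = L ⁻¹' S := by
        rw [hSQ, ← preimage_comp]
        have : (Q.symm ∘ Q : Eu (Fin m) → Eu (Fin m)) = id := by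
          funext x
          simp
        rw [this, preimage_id]
      have e1 : Measure.map Q (pm w) SQ = μ S := by
        rw [Measure.map_apply hQm hSQm, hpre, hμ, Measure.map_apply hLm hS]
      have e2 : ∀ ε : ℝ, Measure.map Q (pm w) (Metric.thickening ε SQ) ≤
          μ (Metric.thickening ε S) := by
        intro ε
        rw [Measure.map_apply hQm Metric.isOpen_thickening.measurableSet, hμ,
          Measure.map_apply hLm Metric.isOpen_thickening.measurableSet]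
        refine measure_mono fun x hx => ?_
        rw [mem_preimage, Metric.mem_thickening_iff] at hx ⊢
        obtain ⟨z, hz, hd⟩ := hx
        refine ⟨L (Q.symm z), by rw [hSQ] at hz; exact hz, ?_⟩
        refine lt_of_le_of_lt ?_ hd
        rw [dist_eq_norm, dist_eq_norm, ← map_sub]
        refine (hQL _).trans (le_of_eq ?_)
        rw [map_sub, ContinuousLinearEquiv.apply_symm_apply]
      rw [e1] at h3
      have e3 : 4 * Real.sqrt (κ * (4 * σ)) = 8 * Real.sqrt (κ * σ) := by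
        have : κ * (4 * σ) = 2 ^ 2 * (κ * σ) := by ring
        rw [this, Real.sqrt_mul (by norm_num), Real.sqrt_sq (by norm_num)]
        ring
      rw [e3] at h3
      refine h3.trans (mul_le_mul_right ?_ _)
      rw [hb]
      refine liminf_le_liminf (Eventually.of_forall fun ε => ?_)
      exact ENNReal.div_le_div_right (tsub_le_tsub_right (e2 ε) _) _
  have hk : 0 < Real.sqrt κ := Real.sqrt_pos.2 hκ
  have hs : 0 < Real.sqrt σ := Real.sqrt_pos.2 hσ
  calc ENNReal.ofReal (1 / (16 * Real.sqrt κ) / Real.sqrt σ) * min (μ S) (1 - μ S) ≤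
      ENNReal.ofReal (1 / (16 * Real.sqrt κ) / Real.sqrt σ) * (2 * (μ S * (1 - μ S))) :=
        mul_le_mul_right (min_le_two prob_le_one) _
    _ ≤ ENNReal.ofReal (1 / (16 * Real.sqrt κ) / Real.sqrt σ) *
        (2 * (ENNReal.ofReal (8 * Real.sqrt (κ * σ)) * b)) :=
        mul_le_mul_right (mul_le_mul_right key _) _
    _ = ENNReal.ofReal (1 / (16 * Real.sqrt κ) / Real.sqrt σ) * (ENNReal.ofReal 2 *
        ENNReal.ofReal (8 * Real.sqrt (κ * σ))) * b := by
        rw [show ENNReal.ofReal 2 = 2 by norm_num]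
        ring
    _ = b := by
        rw [← ENNReal.ofReal_mul (by norm_num), ← ENNReal.ofReal_mul (by positivity)]
        have : 1 / (16 * Real.sqrt κ) / Real.sqrt σ * (2 * (8 * Real.sqrt (κ * σ))) = 1 := by
          rw [Real.sqrt_mul hκ.le]
          field_simp
          norm_num
        rw [this, ENNReal.ofReal_one, one_mul]

/-- summands with the same covariance and the inequality for their own covariance -/
theorem poi_of_equal {n N : ℕ} (μ : Fin N → Measure (Eu (Fin n)))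
    [∀ i, IsProbabilityMeasure (μ i)] (h2 : ∀ i, MemLp id 2 (μ i)) {K : ℝ}
    (hcov : ∀ i j (θ : Eu (Fin n)),
      variance (fun x => ⟪x, θ⟫_ℝ) (μ i) = variance (fun x => ⟪x, θ⟫_ℝ) (μ j)) (i : Fin N)
    (h : Poi K (μ i) (μ i)) : Poi (K / N) (sumLaw μ) (μ i) := by
  intro k P σ hσ hvar v C hv hv1 hv2
  have hN0 : (0:ℝ) < N := by
    have := i.pos
    exact_mod_cast this
  have key := h k P (σ / N) (div_pos hσ hN0) (by
    intro θ hθ
    have h5 : ∀ j, variance (fun x => ⟪P x, θ⟫_ℝ) (μ j) = variance (fun x => ⟪P x, θ⟫_ℝ) (μ i) := by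
      intro j
      have e3 : (fun x => ⟪P x, θ⟫_ℝ) = fun x => ⟪x, LinearMap.adjoint P θ⟫_ℝ := by
        funext x
        rw [LinearMap.adjoint_inner_right]
      rw [e3]
      exact hcov j i _
    have h6 := hvar θ hθ
    rw [var_sum μ h2, Finset.sum_congr rfl fun j _ => h5 j, Finset.sum_const, Finset.card_univ,
      Fintype.card_fin, nsmul_eq_mul] at h6
    rw [le_div_iff₀ hN0]
    linarith) v C hv hv1 hv2
  have e : K / N * σ = K * (σ / N) := by ring
  rw [e]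
  exact key

end Pool.Agent.J4H10.KC
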