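import Pool.Agent.J4H10.KC.Small

/-! Poincare inequalities for all linear images of sums of independent vectors. -/

set_option autoImplicit false

namespace Pool.Agent.J4H10.KC

open MeasureTheory Set Filter Topology ProbabilityTheory
open scoped ENNReal InnerProductSpace
open Pool.Agent.W695.KH (Eu)
open Pool.Agent.Y506.RG (Adm EW VW pm pm_int pm_prob pm_integrable EW_nonneg)
open Pool.Agent.Y506.PV (LCn)

section
variable {n k N : ℕ}

theorem map_sumLaw (μ : Fin N → Measure (Eu (Fin n))) [∀ i, IsProbabilityMeasure (μ i)]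
    (P : Eu (Fin n) →ₗ[ℝ] Eu (Fin k)) :
    Measure.map P (sumLaw μ) = sumLaw fun i => Measure.map P (μ i) := by
  have hPm : Measurable P := P.continuous_of_finiteDimensional.measurable
  unfold sumLaw
  have hmap : ∀ i, IsProbabilityMeasure (Measure.map P (μ i)) := fun i =>
    Measure.isProbabilityMeasure_map hPm.aemeasurable
  rw [Measure.map_map hPm (sum_meas N), ← Measure.pi_map_pi (fun i => hPm.aemeasurable),
    Measure.map_map (sum_meas N) (by fun_prop)]
  congr 1
  funext x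
  simp [map_sum]

theorem PP.mono {E : Type} [NormedAddCommGroup E] [InnerProductSpace ℝ E]
    [MeasurableSpace E] {c c' : ℝ} {ν : Measure E} (hcc : c ≤ c') (h : PP c ν) : PP c' ν :=
  fun f hf hL => (h f hf hL).trans
    (mul_le_mul_of_nonneg_right hcc (integral_nonneg fun x => sq_nonneg _))

/-- the variance as a difference of integrals -/
theorem var_tst {ν : Measure (Eu (Fin n))} [IsProbabilityMeasure ν] {v : Eu (Fin k) → ℝ}
    (hv : Tst v) (P : Eu (Fin n) →ₗ[ℝ] Eu (Fin k)) :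
    variance (fun x => v (P x)) ν = ∫ y, v y ^ 2 ∂(Measure.map P ν) -
      (∫ y, v y ∂(Measure.map P ν)) ^ 2 := by
  have hPc : Continuous P := P.continuous_of_finiteDimensional
  have cv := hv.diff.continuous
  obtain ⟨B, hB⟩ := hv.bdd
  have m : MemLp (fun x => v (P x)) 2 ν :=
    MemLp.of_bound (cv.comp hPc).aestronglyMeasurable B (Eventually.of_forall fun x => hB _)
  have cv2 : Continuous fun y => v y ^ 2 := cv.pow 2
  rw [variance_eq_sub m, integral_map hPc.measurable.aemeasurable cv2.aestronglyMeasurable,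
    integral_map hPc.measurable.aemeasurable cv.aestronglyMeasurable]
  rfl

theorem memLp_map {ν : Measure (Eu (Fin n))} (h : MemLp id 2 ν)
    (P : Eu (Fin n) →ₗ[ℝ] Eu (Fin k)) : MemLp id 2 (Measure.map P ν) := by
  have hPc : Continuous P := P.continuous_of_finiteDimensional
  obtain ⟨P', hP'⟩ : ∃ P' : Eu (Fin n) →L[ℝ] Eu (Fin k), ∀ x, P' x = P x :=
    ⟨LinearMap.toContinuousLinearMap P, fun x => rfl⟩
  rw [memLp_map_measure_iff aestronglyMeasurable_id hPc.measurable.aemeasurable]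
  have h1 : MemLp (fun x => P' (id x)) 2 ν := P'.comp_memLp' h
  have e : (id ∘ P : Eu (Fin n) → Eu (Fin k)) = fun x => P' (id x) := by
    funext x
    simp [hP']
  rw [e]
  exact h1

theorem var_map {ν : Measure (Eu (Fin n))} (P : Eu (Fin n) →ₗ[ℝ] Eu (Fin k)) (θ : Eu (Fin k)) :
    variance (fun x => ⟪θ, x⟫_ℝ) (Measure.map P ν) = variance (fun x => ⟪P x, θ⟫_ℝ) ν := by
  have hPc : Continuous P := P.continuous_of_finiteDimensional
  rw [variance_map (by fun_prop) hPc.measurable.aemeasurable]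
  congr 1
  funext x
  exact real_inner_comm _ _

/-- the variances of a summand are at most those of the sum -/
theorem var_le (μ : Fin N → Measure (Eu (Fin n))) [∀ i, IsProbabilityMeasure (μ i)]
    (h2 : ∀ i, MemLp id 2 (μ i)) (P : Eu (Fin n) →ₗ[ℝ] Eu (Fin k)) (i : Fin N) (θ : Eu (Fin k)) :
    variance (fun x => ⟪P x, θ⟫_ℝ) (μ i) ≤ variance (fun x => ⟪P x, θ⟫_ℝ) (sumLaw μ) := by
  have hPm : Measurable P := P.continuous_of_finiteDimensional.measurable
  have hmap : ∀ i, IsProbabilityMeasure (Measure.map P (μ i)) := fun i =>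
    Measure.isProbabilityMeasure_map hPm.aemeasurable
  rw [← var_map, ← var_map, map_sumLaw, var_sumLaw _ fun i => memLp_map (h2 i) P,
    ← covarianceBilin_self (memLp_map (h2 i) P)]
  exact Finset.single_le_sum
    (f := fun i => covarianceBilin (Measure.map P (μ i)) θ θ)
    (fun i _ => covarianceBilin_self_nonneg θ) (Finset.mem_univ i)

theorem var_sum (μ : Fin N → Measure (Eu (Fin n))) [∀ i, IsProbabilityMeasure (μ i)]
    (h2 : ∀ i, MemLp id 2 (μ i)) (P : Eu (Fin n) →ₗ[ℝ] Eu (Fin k)) (θ : Eu (Fin k)) :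
    variance (fun x => ⟪P x, θ⟫_ℝ) (sumLaw μ) = ∑ i, variance (fun x => ⟪P x, θ⟫_ℝ) (μ i) := by
  have hPm : Measurable P := P.continuous_of_finiteDimensional.measurable
  have hmap : ∀ i, IsProbabilityMeasure (Measure.map P (μ i)) := fun i =>
    Measure.isProbabilityMeasure_map hPm.aemeasurable
  rw [← var_map, map_sumLaw, var_sumLaw _ fun i => memLp_map (h2 i) P]
  refine Finset.sum_congr rfl fun i _ => ?_
  rw [covarianceBilin_self (memLp_map (h2 i) P), var_map]

/-- Poincare inequality for all linear images, relative to the covariance of `μ` -/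
def Poi (κ : ℝ) (μ ν : Measure (Eu (Fin n))) : Prop :=
  ∀ (k : ℕ) (P : Eu (Fin n) →ₗ[ℝ] Eu (Fin k)) (σ : ℝ), 0 < σ →
  (∀ θ : Eu (Fin k), ‖θ‖ = 1 → variance (fun x => ⟪P x, θ⟫_ℝ) μ ≤ σ) →
  ∀ (v : Eu (Fin k) → ℝ) (C : ℝ), ContDiff ℝ 1 v → (∀ y, |v y| ≤ C) →
  (∀ y, ‖fderiv ℝ v y‖ ≤ C) →
  variance (fun x => v (P x)) ν ≤ κ * σ * ∫ x, ‖fderiv ℝ v (P x)‖ ^ 2 ∂ν

/-- second moments compared with the covariance of `μ` -/
def Sml (K : ℝ) (μ ν : Measure (Eu (Fin n))) : Prop :=
  ∀ (k : ℕ) (P : Eu (Fin n) →ₗ[ℝ] Eu (Fin k)) (σ : ℝ), 0 < σ →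
  (∀ θ : Eu (Fin k), ‖θ‖ = 1 → variance (fun x => ⟪P x, θ⟫_ℝ) μ ≤ σ) →
  ∫ y, ‖P y - ∫ z, P z ∂ν‖ ^ 2 ∂ν ≤ K * σ

/-- affine images of log-concave densities -/
def LCL (ν : Measure (Eu (Fin n))) : Prop := ∃ (m : ℕ) (ρ : Eu (Fin m) → ℝ)
  (L : Eu (Fin m) →ₗ[ℝ] Eu (Fin n)) (b : Eu (Fin n)), (∀ x, 0 ≤ ρ x) ∧ Measurable ρ ∧ LCn ρ ∧
  0 < ∫ x, ρ x ∧ ν = Measure.map (fun z => b + L z) (pm ρ)

end

theorem main : ∃ C : ℝ, 0 < C ∧ ∀ (n N : ℕ) (μ : Fin N → Measure (Eu (Fin n))),
    (∀ i, IsProbabilityMeasure (μ i)) → (∀ i, MemLp id 2 (μ i)) → ∀ K ε : ℝ, 0 < K → 0 < ε →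
    (∀ i, Poi K (sumLaw μ) (μ i) ∨ (LCL (μ i) ∧ Sml ε (sumLaw μ) (μ i))) →
    Poi ((1 + √(max K (C * ε))) ^ 2) (sumLaw μ) (sumLaw μ) := by
  obtain ⟨C, hC, H⟩ := sm
  refine ⟨C, hC, fun n N μ hprob h2 K ε hK hε hcl => ?_⟩
  intro k P σ hσ hvar v B hv hvB hvL
  have hPc : Continuous P := P.continuous_of_finiteDimensional
  have hPm : Measurable P := hPc.measurable
  have hmap : ∀ i, IsProbabilityMeasure (Measure.map P (μ i)) := fun i =>
    Measure.isProbabilityMeasure_map hPm.aemeasurable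
  have hvT : Tst v := ⟨hv, ⟨B, hvB⟩, ⟨B, hvL⟩⟩
  obtain ⟨κ, hκ⟩ : ∃ κ, κ = max K (C * ε) := ⟨_, rfl⟩
  have hκ0 : 0 < κ := by rw [hκ]; exact lt_max_of_lt_left hK
  rw [← hκ]
  have hsp := sumLaw_prob μ
  have hPP : ∀ i, PP (κ * σ) (Measure.map P (μ i)) := by
    intro i
    rcases hcl i with h | ⟨⟨m, ρ, L, b, r0, rm, rl, rp, hν⟩, hs⟩
    · refine PP_of_PB (memLp_map (h2 i) P) (by positivity) fun f hf => ?_
      obtain ⟨B1, hB1⟩ := hf.bdd
      obtain ⟨L1, hL1⟩ := hf.grad
      have h3 := h k P σ hσ hvar f (max B1 L1)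
        hf.diff (fun y => (hB1 y).trans (le_max_left _ _))
        (fun y => (hL1 y).trans (le_max_right _ _))
      rw [var_tst hf P] at h3
      have cf2 : Continuous fun y => ‖fderiv ℝ f y‖ ^ 2 :=
        (hf.diff.continuous_fderiv one_ne_zero).norm.pow 2
      rw [integral_map hPm.aemeasurable cf2.aestronglyMeasurable]
      refine h3.trans (mul_le_mul_of_nonneg_right ?_ (integral_nonneg fun x => sq_nonneg _))
      exact mul_le_mul_of_nonneg_right (by rw [hκ]; exact le_max_left _ _) hσ.le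
    · have hA : Adm ρ := ⟨r0, Pool.Agent.Y506.PV.int_moment r0 rm rl rp, rp, rm⟩
      have hpr := pm_prob hA
      obtain ⟨T, hT⟩ : ∃ T : Eu (Fin m) →ₗ[ℝ] Eu (Fin k), T = P.comp L := ⟨_, rfl⟩
      have hLc : Continuous L := L.continuous_of_finiteDimensional
      obtain ⟨T', hT'⟩ : ∃ T' : Eu (Fin m) →L[ℝ] Eu (Fin k), ∀ x, T' x = T x :=
        ⟨LinearMap.toContinuousLinearMap T, fun x => rfl⟩
      have cz : Continuous fun z => b + L z := continuous_const.add hLc
      have e1 : Measure.map P (μ i) = Measure.map (fun z => P b + T z) (pm ρ) := by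
        rw [hν, Measure.map_map hPm cz.measurable]
        congr 1
        funext z
        simp [hT]
      have idz : Integrable (fun z : Eu (Fin m) => z) (pm ρ) := by
        have mz : AEStronglyMeasurable (fun z : Eu (Fin m) => z) (pm ρ) := aestronglyMeasurable_id
        rw [← integrable_norm_iff mz]
        refine pm_integrable hA _ (hA.of_bd _ continuous_norm.measurable 1 fun x => ?_)
        rw [abs_norm, one_mul]
        nlinarith [sq_nonneg (‖x‖ - 1), norm_nonneg x]
      obtain ⟨a, ha⟩ : ∃ a, a = ∫ z, z ∂(pm ρ) := ⟨_, rfl⟩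
      have hTa : ∫ z, T z ∂(pm ρ) = T a := by
        have h3 := T'.integral_comp_comm idz
        rw [← ha] at h3
        rw [← hT', ← h3]
        exact integral_congr_ae (Eventually.of_forall fun z => (hT' z).symm)
      have iTz : Integrable (fun z => T z) (pm ρ) := by
        have h3 := T'.integrable_comp idz
        refine h3.congr (Eventually.of_forall fun z => ?_)
        simp only
        rw [hT']
      have h3 := H ρ r0 rm rl rp T a (P b)
      rw [e1]
      refine h3.mono ?_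
      have h4 := hs k P σ hσ hvar
      have e2 : ∫ z, P z ∂(μ i) = P b + T a := by
        rw [hν, integral_map cz.measurable.aemeasurable hPc.aestronglyMeasurable]
        have : (fun z => P (b + L z)) = fun z => P b + T z := by
          funext z
          simp [hT]
        rw [this, integral_add (integrable_const _) iTz, hTa]
        simp
      have cp2 : Continuous fun y => ‖P y - (P b + T a)‖ ^ 2 :=
        (hPc.sub continuous_const).norm.pow 2
      have e3 : ∫ y, ‖P y - (P b + T a)‖ ^ 2 ∂(μ i) = EW ρ fun x => ‖T (x - a)‖ ^ 2 := by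
        rw [hν, integral_map cz.measurable.aemeasurable cp2.aestronglyMeasurable, ← pm_int hA]
        refine integral_congr_ae (Eventually.of_forall fun z => ?_)
        simp only
        congr 2
        rw [map_add, map_sub, hT]
        simp only [LinearMap.comp_apply]
        abel
      rw [e2, e3] at h4
      calc C * EW ρ (fun x => ‖T (x - a)‖ ^ 2) ≤ C * (ε * σ) := mul_le_mul_of_nonneg_left h4 hC.le
        _ = (C * ε) * σ := by ring
        _ ≤ κ * σ := mul_le_mul_of_nonneg_right (by rw [hκ]; exact le_max_right _ _) hσ.le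
  have key := main_ineq (μ := fun i => Measure.map P (μ i)) (fun i => memLp_map (h2 i) P) hσ.le
    hκ0 (fun u hu => by
      rw [← map_sumLaw, var_map]
      exact hvar u hu) hPP hvT
  rw [← map_sumLaw] at key
  rw [var_tst hvT P]
  refine key.trans (le_of_eq ?_)
  have cv2 : Continuous fun y => ‖fderiv ℝ v y‖ ^ 2 :=
    (hv.continuous_fderiv one_ne_zero).norm.pow 2
  rw [integral_map hPm.aemeasurable cv2.aestronglyMeasurable]

theorem poi_of_self {n N : ℕ} (μ : Fin N → Measure (Eu (Fin n)))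
    [∀ i, IsProbabilityMeasure (μ i)] (h2 : ∀ i, MemLp id 2 (μ i)) {K : ℝ} (i : Fin N)
    (h : Poi K (μ i) (μ i)) : Poi K (sumLaw μ) (μ i) :=
  fun k P σ hσ hvar => h k P σ hσ fun θ hθ => (var_le μ h2 P i θ).trans (hvar θ hθ)

/-- many summands with the same covariance are small -/
theorem sml_of_equal {n N : ℕ} (μ : Fin N → Measure (Eu (Fin n)))
    [∀ i, IsProbabilityMeasure (μ i)] (h2 : ∀ i, MemLp id 2 (μ i)) {ε : ℝ}
    (hN : (n : ℝ) ≤ ε * N) (hcov : ∀ i j (θ : Eu (Fin n)),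
      variance (fun x => ⟪x, θ⟫_ℝ) (μ i) = variance (fun x => ⟪x, θ⟫_ℝ) (μ j)) (i : Fin N) :
    Sml ε (sumLaw μ) (μ i) := by
  intro k P σ hσ hvar
  have hN0 : (0:ℝ) < N := by
    have := i.pos
    exact_mod_cast this
  have hPc : Continuous P := P.continuous_of_finiteDimensional
  obtain ⟨P', hP'⟩ : ∃ P' : Eu (Fin n) →L[ℝ] Eu (Fin k), ∀ x, P' x = P x :=
    ⟨LinearMap.toContinuousLinearMap P, fun x => rfl⟩
  have iid : Integrable (fun x : Eu (Fin n) => x) (μ i) := (h2 i).integrable one_le_two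
  have iP : Integrable (fun x => P x) (μ i) := by
    have h3 := P'.integrable_comp iid
    refine h3.congr (Eventually.of_forall fun z => ?_)
    simp only
    rw [hP']
  obtain ⟨a, ha⟩ : ∃ a, a = ∫ z, z ∂(μ i) := ⟨_, rfl⟩
  have hPa : ∫ z, P z ∂(μ i) = P a := by
    have h3 := P'.integral_comp_comm iid
    rw [← ha] at h3
    rw [← hP', ← h3]
    exact integral_congr_ae (Eventually.of_forall fun z => (hP' z).symm)
  obtain ⟨W, hW⟩ : ∃ W : Submodule ℝ (Eu (Fin k)), W = LinearMap.range P := ⟨_, rfl⟩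
  have hr : Module.finrank ℝ W ≤ n := by
    rw [hW]
    have := LinearMap.finrank_range_le P
    simpa using this
  let e := stdOrthonormalBasis ℝ W
  have hsum : ∀ y ∈ W, ‖y‖ ^ 2 = ∑ l, ⟪y, (e l : Eu (Fin k))⟫_ℝ ^ 2 := by
    intro y hy
    have h3 := e.sum_sq_norm_inner_right ⟨y, hy⟩
    have h4 : ‖(⟨y, hy⟩ : W)‖ = ‖y‖ := rfl
    rw [h4] at h3
    rw [← h3]
    refine Finset.sum_congr rfl fun l _ => ?_
    rw [Real.norm_eq_abs, sq_abs]
    have h5 : ⟪e l, (⟨y, hy⟩ : W)⟫_ℝ = ⟪(e l : Eu (Fin k)), y⟫_ℝ := rfl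
    rw [h5, real_inner_comm]
  have mP : MemLp (fun x => P x) 2 (μ i) := by
    have h3 := P'.comp_memLp' (h2 i)
    refine h3.ae_eq (Eventually.of_forall fun z => ?_)
    simp [hP']
  have ml : ∀ θ : Eu (Fin k), MemLp (fun x => ⟪P x, θ⟫_ℝ) 2 (μ i) := fun θ => mP.inner_const θ
  have hV : ∀ θ : Eu (Fin k), ‖θ‖ = 1 →
      ∫ x, ⟪P x - P a, θ⟫_ℝ ^ 2 ∂(μ i) ≤ σ / N := by
    intro θ hθ
    have h3 : ∫ x, ⟪P x - P a, θ⟫_ℝ ^ 2 ∂(μ i) = variance (fun x => ⟪P x, θ⟫_ℝ) (μ i) := by
      rw [variance_eq_integral (ml θ).aestronglyMeasurable.aemeasurable]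
      have h4 : ∫ x, ⟪P x, θ⟫_ℝ ∂(μ i) = ⟪P a, θ⟫_ℝ := by
        rw [← hPa, real_inner_comm, ← integral_inner iP]
        exact integral_congr_ae (Eventually.of_forall fun z => real_inner_comm _ _)
      rw [h4]
      refine integral_congr_ae (Eventually.of_forall fun z => ?_)
      simp only
      rw [inner_sub_left]
    have h5 : ∀ j, variance (fun x => ⟪P x, θ⟫_ℝ) (μ j) = variance (fun x => ⟪P x, θ⟫_ℝ) (μ i) := by
      intro j
      have e3 : (fun x => ⟪P x, θ⟫_ℝ) = fun x => ⟪x, LinearMap.adjoint P θ⟫_ℝ := by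
        funext x
        rw [LinearMap.adjoint_inner_right]
      rw [e3]
      exact hcov j i _
    have h6 := hvar θ hθ
    rw [var_sum μ h2, Finset.sum_congr rfl fun j _ => h5 j, Finset.sum_const, Finset.card_univ,
      Fintype.card_fin, nsmul_eq_mul] at h6
    rw [h3, le_div_iff₀ hN0]
    linarith
  rw [hPa]
  have e4 : ∀ x, ‖P x - P a‖ ^ 2 = ∑ l, ⟪P x - P a, (e l : Eu (Fin k))⟫_ℝ ^ 2 := fun x =>
    hsum _ (by rw [hW, ← map_sub]; exact LinearMap.mem_range_self P _)
  simp only [e4]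
  rw [integral_finset_sum]
  · have h7 : ∑ l, ∫ x, ⟪P x - P a, (e l : Eu (Fin k))⟫_ℝ ^ 2 ∂(μ i) ≤
        ∑ _l : Fin (Module.finrank ℝ W), σ / N :=
      Finset.sum_le_sum fun l _ => hV _ (by
        have := e.orthonormal.1 l
        exact this)
    refine h7.trans ?_
    rw [Finset.sum_const, Finset.card_univ, Fintype.card_fin, nsmul_eq_mul, ← mul_div_assoc,
      div_le_iff₀ hN0]
    have h8 : (Module.finrank ℝ W : ℝ) ≤ n := by exact_mod_cast hr
    calc (Module.finrank ℝ W : ℝ) * σ ≤ n * σ := mul_le_mul_of_nonneg_right h8 hσ.le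
      _ ≤ (ε * N) * σ := mul_le_mul_of_nonneg_right hN hσ.le
      _ = ε * σ * N := by ring
  · intro l _
    have h9 : MemLp (fun x => ⟪P x - P a, (e l : Eu (Fin k))⟫_ℝ) 2 (μ i) := by
      have := (ml (e l)).sub (memLp_const ⟪P a, (e l : Eu (Fin k))⟫_ℝ)
      refine this.ae_eq (Eventually.of_forall fun z => ?_)
      simp [inner_sub_left]
    exact h9.integrable_sq

/-- affine images of log-concave vectors have finite second moments -/
theorem LCL.prob {n : ℕ} {ν : Measure (Eu (Fin n))} (h : LCL ν) :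
    IsProbabilityMeasure ν ∧ MemLp id 2 ν := by
  obtain ⟨m, ρ, L, b, r0, rm, rl, rp, hν⟩ := h
  have hA : Adm ρ := ⟨r0, Pool.Agent.Y506.PV.int_moment r0 rm rl rp, rp, rm⟩
  have hpr := pm_prob hA
  have hLc : Continuous L := L.continuous_of_finiteDimensional
  obtain ⟨L', hL'⟩ : ∃ L' : Eu (Fin m) →L[ℝ] Eu (Fin n), ∀ x, L' x = L x :=
    ⟨LinearMap.toContinuousLinearMap L, fun x => rfl⟩
  have cz : Continuous fun z => b + L z := continuous_const.add hLc
  refine ⟨by rw [hν]; exact Measure.isProbabilityMeasure_map cz.measurable.aemeasurable, ?_⟩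
  have mz : MemLp (fun z : Eu (Fin m) => z) 2 (pm ρ) := by
    have m1 : AEStronglyMeasurable (fun z : Eu (Fin m) => z) (pm ρ) := aestronglyMeasurable_id
    rw [memLp_two_iff_integrable_sq_norm m1]
    refine pm_integrable hA _ (hA.of_bd _ (continuous_norm.pow 2).measurable 1 fun x => ?_)
    rw [abs_of_nonneg (sq_nonneg _), one_mul]
    linarith
  rw [hν, memLp_map_measure_iff aestronglyMeasurable_id cz.measurable.aemeasurable]
  have m2 : MemLp (fun z => b + L' z) 2 (pm ρ) := (memLp_const b).add (L'.comp_memLp' mz)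
  refine m2.ae_eq (Eventually.of_forall fun z => ?_)
  simp [hL']

end Pool.Agent.J4H10.KC
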