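import Pool.Agent.J4H10.KC.Conv

/-! Poincare inequalities for sums of independent random vectors: any number of summands. -/

set_option autoImplicit false

namespace Pool.Agent.J4H10.KC

open MeasureTheory Set Filter Topology ProbabilityTheory
open scoped ENNReal InnerProductSpace

variable {E : Type} [NormedAddCommGroup E] [InnerProductSpace ℝ E] [FiniteDimensional ℝ E]
  [MeasurableSpace E] [BorelSpace E]

/-- the law of the sum of independent vectors with laws `μ i` -/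
noncomputable def sumLaw {N : ℕ} (μ : Fin N → Measure E) : Measure E :=
  (Measure.pi μ).map fun x => ∑ i, x i

theorem sum_meas (N : ℕ) : Measurable fun x : Fin N → E => ∑ i, x i := by fun_prop

theorem sumLaw_prob {N : ℕ} (μ : Fin N → Measure E) [∀ i, IsProbabilityMeasure (μ i)] :
    IsProbabilityMeasure (sumLaw μ) :=
  Measure.isProbabilityMeasure_map (sum_meas N).aemeasurable

theorem sumLaw_zero (μ : Fin 0 → Measure E) : sumLaw μ = Measure.dirac 0 := by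
  unfold sumLaw
  have h1 : (fun x : Fin 0 → E => ∑ i, x i) = fun _ => 0 := by
    funext x; simp
  rw [h1, Measure.map_const]
  have hs : ∀ i, SigmaFinite (μ i) := fun i => i.elim0
  have : Measure.pi μ univ = 1 := by
    rw [Measure.pi_univ]; simp
  rw [this, one_smul]

theorem sumLaw_succ {N : ℕ} (μ : Fin (N + 1) → Measure E) [∀ i, IsProbabilityMeasure (μ i)] :
    sumLaw μ = cv (μ 0) (sumLaw fun i : Fin N => μ i.succ) := by
  have hmp := measurePreserving_piFinSuccAbove μ 0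
  have e1 : (fun x : Fin (N + 1) → E => ∑ i, x i) =
      (fun p : E × (Fin N → E) => p.1 + ∑ i, p.2 i) ∘
        (MeasurableEquiv.piFinSuccAbove (fun _ => E) 0) := by
    funext x
    simp only [Function.comp]
    rw [Fin.sum_univ_succ]
    rfl
  have m1 : Measurable fun p : E × (Fin N → E) => p.1 + ∑ i, p.2 i := by fun_prop
  unfold sumLaw
  rw [e1, ← Measure.map_map m1 hmp.measurable, hmp.map_eq]
  unfold cv
  have e2 : (fun p : E × (Fin N → E) => p.1 + ∑ i, p.2 i) =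
      (fun p : E × E => p.1 + p.2) ∘ (Prod.map id fun x : Fin N → E => ∑ i, x i) := rfl
  rw [e2, ← Measure.map_map (by fun_prop) (by fun_prop)]
  congr 1
  rw [← Measure.map_prod_map _ _ measurable_id (sum_meas N), Measure.map_id]
  rfl

theorem RR_dirac (α β : ℝ) : RR α β (0 : E →L[ℝ] E →L[ℝ] ℝ) (Measure.dirac 0) := by
  intro f _
  simp

theorem RR_sum {α β : ℝ} (hα : 0 ≤ α) : ∀ {N : ℕ} (μ : Fin N → Measure E)
    (_ : ∀ i, IsProbabilityMeasure (μ i)) (B : Fin N → E →L[ℝ] E →L[ℝ] ℝ)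
    (_ : ∀ i u, 0 ≤ B i u u) (_ : ∀ i, RR α β (B i) (μ i)), RR α β (∑ i, B i) (sumLaw μ) := by
  intro N
  induction N with
  | zero =>
    intro μ _ B _ _
    rw [sumLaw_zero]
    simpa using RR_dirac (E := E) α β
  | succ N ih =>
    intro μ hμ B hB h
    have := sumLaw_prob fun i : Fin N => μ i.succ
    rw [sumLaw_succ, Fin.sum_univ_succ]
    exact (h 0).cv hα (hB 0) (ih _ (fun i => hμ _) _ (fun i => hB _) fun i => h _)

/-- Poincare inequality for `C¹` functions with bounded gradient -/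
def PP (c : ℝ) (ν : Measure E) : Prop :=
  ∀ f : E → ℝ, ContDiff ℝ 1 f → (∃ L : ℝ, ∀ x, ‖fderiv ℝ f x‖ ≤ L) →
    ∫ x, f x ^ 2 ∂ν - (∫ x, f x ∂ν) ^ 2 ≤ c * ∫ x, ‖fderiv ℝ f x‖ ^ 2 ∂ν

theorem var_add_le {Ω : Type} [MeasurableSpace Ω] {ν : Measure Ω} [IsProbabilityMeasure ν]
    {a b : Ω → ℝ} (ha : MemLp a 2 ν) (hb : MemLp b 2 ν) {η : ℝ} (hη : 0 < η) :
    ∫ x, (a x + b x) ^ 2 ∂ν - (∫ x, (a x + b x) ∂ν) ^ 2 ≤
      (1 + η) * (∫ x, a x ^ 2 ∂ν - (∫ x, a x ∂ν) ^ 2) +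
      (1 + 1 / η) * (∫ x, b x ^ 2 ∂ν - (∫ x, b x ∂ν) ^ 2) := by
  have ia : Integrable a ν := ha.integrable one_le_two
  have ib : Integrable b ν := hb.integrable one_le_two
  have ia2 : Integrable (fun x => a x ^ 2) ν := ha.integrable_sq
  have ib2 : Integrable (fun x => b x ^ 2) ν := hb.integrable_sq
  have iab : Integrable (fun x => a x * b x) ν := ha.integrable_mul hb
  obtain ⟨A, hA⟩ : ∃ A, A = ∫ x, a x ∂ν := ⟨_, rfl⟩
  obtain ⟨B, hB⟩ : ∃ B, B = ∫ x, b x ∂ν := ⟨_, rfl⟩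
  obtain ⟨p, hp⟩ : ∃ p, p = ∫ x, a x ^ 2 ∂ν := ⟨_, rfl⟩
  obtain ⟨q, hq⟩ : ∃ q, q = ∫ x, b x ^ 2 ∂ν := ⟨_, rfl⟩
  obtain ⟨s, hs⟩ : ∃ s, s = ∫ x, a x * b x ∂ν := ⟨_, rfl⟩
  have e1 : ∫ x, (a x + b x) ^ 2 ∂ν = p + 2 * s + q := by
    have h1 : (fun x => (a x + b x) ^ 2) = fun x => a x ^ 2 + 2 * (a x * b x) + b x ^ 2 := by
      funext x; ring
    have j1 : Integrable (fun x => a x ^ 2 + 2 * (a x * b x)) ν := ia2.add (iab.const_mul 2)
    rw [h1, integral_add j1 ib2, integral_add ia2 (iab.const_mul 2), integral_const_mul, hp, hq, hs]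
  have e2 : ∫ x, (a x + b x) ∂ν = A + B := by rw [integral_add ia ib, hA, hB]
  have h0 : 0 ≤ ∫ x, (η * (a x - A) - (b x - B)) ^ 2 ∂ν := integral_nonneg fun x => sq_nonneg _
  have e3 : ∫ x, (η * (a x - A) - (b x - B)) ^ 2 ∂ν =
      η ^ 2 * (p - A ^ 2) - 2 * η * (s - A * B) + (q - B ^ 2) := by
    have h1 : (fun x => (η * (a x - A) - (b x - B)) ^ 2) = fun x =>
        (η ^ 2 * a x ^ 2 + (-(2 * η)) * (a x * b x)) + (1 * b x ^ 2 +
          ((-(2 * (η * A - B) * η)) * a x + (2 * (η * A - B)) * b x)) + (η * A - B) ^ 2 := by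
      funext x; ring
    have j1 : Integrable (fun x => η ^ 2 * a x ^ 2 + (-(2 * η)) * (a x * b x)) ν :=
      (ia2.const_mul _).add (iab.const_mul _)
    have j2 : Integrable (fun x => (-(2 * (η * A - B) * η)) * a x + (2 * (η * A - B)) * b x) ν :=
      (ia.const_mul _).add (ib.const_mul _)
    have j3 : Integrable (fun x => 1 * b x ^ 2 +
          ((-(2 * (η * A - B) * η)) * a x + (2 * (η * A - B)) * b x)) ν := (ib2.const_mul _).add j2
    have j4 : Integrable (fun x => (η ^ 2 * a x ^ 2 + (-(2 * η)) * (a x * b x)) + (1 * b x ^ 2 +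
          ((-(2 * (η * A - B) * η)) * a x + (2 * (η * A - B)) * b x))) ν := j1.add j3
    rw [h1, integral_add j4 (integrable_const _), integral_add j1 j3,
      integral_add (ia2.const_mul _) (iab.const_mul _), integral_add (ib2.const_mul _) j2,
      integral_add (ia.const_mul _) (ib.const_mul _), integral_const_mul, integral_const_mul,
      integral_const_mul, integral_const_mul, integral_const_mul, ← hA, ← hB, ← hp, ← hq, ← hs]
    simp only [integral_const, probReal_univ, smul_eq_mul, one_mul]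
    ring
  rw [e3] at h0
  rw [e1, e2, ← hp, ← hq, ← hA, ← hB]
  have h2 : 2 * (s - A * B) ≤ η * (p - A ^ 2) + 1 / η * (q - B ^ 2) := by
    have h3 : 0 ≤ (η ^ 2 * (p - A ^ 2) - 2 * η * (s - A * B) + (q - B ^ 2)) / η :=
      div_nonneg h0 hη.le
    have h4 : (η ^ 2 * (p - A ^ 2) - 2 * η * (s - A * B) + (q - B ^ 2)) / η =
        η * (p - A ^ 2) - 2 * (s - A * B) + 1 / η * (q - B ^ 2) := by
      field_simp
    linarith
  linarith

theorem RR_of_PP {ν : Measure E} [IsProbabilityMeasure ν] (h2 : MemLp id 2 ν) {c η : ℝ}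
    (hη : 0 < η) (hPP : PP c ν) : RR (1 + η) ((1 + 1 / η) * c) (covarianceBilin ν) ν := by
  intro f hf
  obtain ⟨B, hB⟩ := hf.bdd
  obtain ⟨L, hL⟩ := hf.grad
  have hLg : ∀ x, ‖gr f x‖ ≤ L := fun x => by rw [gr_norm]; exact hL x
  have cg := gr_cont hf.diff
  have ig : Integrable (gr f) ν := int_bc ν cg hLg
  obtain ⟨g, hg⟩ : ∃ g, g = ∫ x, gr f x ∂ν := ⟨_, rfl⟩
  obtain ⟨r, hr⟩ : ∃ r : E → ℝ, r = fun x => f x - ⟪g, x⟫_ℝ := ⟨_, rfl⟩
  obtain ⟨l, hl⟩ : ∃ l : E → ℝ, l = fun x => ⟪g, x⟫_ℝ := ⟨_, rfl⟩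
  have hdl : ContDiff ℝ 1 l := by
    rw [hl]; exact (innerSL ℝ g).contDiff
  have hdr : ContDiff ℝ 1 r := by
    have : r = fun x => f x - l x := by rw [hr, hl]
    rw [this]; exact hf.diff.sub hdl
  have hfr : ∀ x, gr r x = gr f x - g := by
    intro x
    refine ext_inner_right ℝ fun u => ?_
    rw [gr_inner, inner_sub_left, gr_inner]
    have h1 : HasFDerivAt r (fderiv ℝ f x - innerSL ℝ g) x := by
      have h3 : HasFDerivAt l (innerSL ℝ g) x := by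
        rw [hl]; exact (innerSL ℝ g).hasFDerivAt
      have : r = fun x => f x - l x := by rw [hr, hl]
      rw [this]
      exact (hf.diff.differentiable one_ne_zero x).hasFDerivAt.sub h3
    rw [h1.fderiv]
    simp
  have hrn : ∀ x, ‖fderiv ℝ r x‖ = ‖gr f x - g‖ := fun x => by rw [← gr_norm, hfr]
  have key := hPP r hdr ⟨L + ‖g‖, fun x => by
    rw [hrn]; exact (norm_sub_le _ _).trans (add_le_add (hLg x) le_rfl)⟩
  -- the gradient of `r`
  have e1 : ∫ x, ‖fderiv ℝ r x‖ ^ 2 ∂ν = ∫ x, ‖gr f x‖ ^ 2 ∂ν - ‖g‖ ^ 2 := by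
    have h1 : (fun x => ‖fderiv ℝ r x‖ ^ 2) =
        fun x => (‖gr f x‖ ^ 2 + (-2) * ⟪g, gr f x⟫_ℝ) + ‖g‖ ^ 2 := by
      funext x
      rw [hrn, norm_sub_sq_real, real_inner_comm]
      ring
    have i1 : Integrable (fun x => ‖gr f x‖ ^ 2) ν :=
      int_bc ν (cg.norm.pow 2) (B := L ^ 2) fun x => by
        rw [norm_pow, norm_norm]; exact pow_le_pow_left₀ (norm_nonneg _) (hLg x) 2
    have i2 : Integrable (fun x => (-2) * ⟪g, gr f x⟫_ℝ) ν := (ig.const_inner g).const_mul _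
    have i3 : Integrable (fun x => ‖gr f x‖ ^ 2 + (-2) * ⟪g, gr f x⟫_ℝ) ν := i1.add i2
    rw [h1, integral_add i3 (integrable_const _), integral_add i1 i2,
      integral_const_mul, integral_inner ig, ← hg, real_inner_self_eq_norm_sq]
    simp only [integral_const, probReal_univ, smul_eq_mul, one_mul]
    ring
  -- the linear part
  have ml : MemLp l 2 ν := by
    rw [hl]
    exact h2.const_inner g
  have mf : MemLp f 2 ν :=
    MemLp.of_bound hf.diff.continuous.aestronglyMeasurable B (Eventually.of_forall hB)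
  have mr : MemLp r 2 ν := by
    have : r = f - l := by rw [hr, hl]; rfl
    rw [this]; exact mf.sub ml
  have e2 : ∫ x, l x ^ 2 ∂ν - (∫ x, l x ∂ν) ^ 2 = covarianceBilin ν g g := by
    rw [covarianceBilin_self h2, ← hl, variance_eq_sub ml]
    rfl
  have e3 := var_add_le ml mr hη
  have e4 : (fun x => l x + r x) = f := by
    funext x; rw [hl, hr]; simp
  have e5 : (fun x => (l x + r x) ^ 2) = fun x => f x ^ 2 := by
    funext x
    rw [← e4]
  rw [e5, e4, e2] at e3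
  rw [e1] at key
  have hj : covarianceBilin ν g g ≤ ∫ x, covarianceBilin ν (gr f x) (gr f x) ∂ν := by
    rw [hg]
    refine jensen ν _ (fun u => covarianceBilin_self_nonneg u) ig ?_
    obtain ⟨Q, hQ⟩ : ∃ Q, Q = covarianceBilin ν := ⟨_, rfl⟩
    rw [← hQ]
    have hL0 : 0 ≤ L := (norm_nonneg _).trans (hL 0)
    refine int_bc ν ((Q.continuous.comp cg).clm_apply cg) (B := ‖Q‖ * L * L) fun x => ?_
    calc ‖Q (gr f x) (gr f x)‖ ≤ ‖Q (gr f x)‖ * ‖gr f x‖ := (Q (gr f x)).le_opNorm _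
      _ ≤ (‖Q‖ * ‖gr f x‖) * ‖gr f x‖ := mul_le_mul_of_nonneg_right (Q.le_opNorm _) (norm_nonneg _)
      _ ≤ (‖Q‖ * L) * L := by
        have := hLg x
        gcongr
  have h1 : (1 + η) * covarianceBilin ν g g ≤
      (1 + η) * ∫ x, covarianceBilin ν (gr f x) (gr f x) ∂ν :=
    mul_le_mul_of_nonneg_left hj (by linarith)
  have h3 : (1 + 1 / η) * (∫ x, r x ^ 2 ∂ν - (∫ x, r x ∂ν) ^ 2) ≤
      (1 + 1 / η) * (c * (∫ x, ‖gr f x‖ ^ 2 ∂ν - ‖g‖ ^ 2)) :=
    mul_le_mul_of_nonneg_left key (by positivity)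
  rw [← hg]
  calc _ ≤ _ := e3
    _ ≤ (1 + η) * ∫ x, covarianceBilin ν (gr f x) (gr f x) ∂ν +
        (1 + 1 / η) * (c * (∫ x, ‖gr f x‖ ^ 2 ∂ν - ‖g‖ ^ 2)) := add_le_add h1 h3
    _ = _ := by ring

/-- the variances add up -/
theorem var_sumLaw {N : ℕ} (μ : Fin N → Measure E) [∀ i, IsProbabilityMeasure (μ i)]
    (h2 : ∀ i, MemLp id 2 (μ i)) (u : E) :
    Var[fun x => ⟪u, x⟫_ℝ; sumLaw μ] = ∑ i, covarianceBilin (μ i) u u := by
  unfold sumLaw
  rw [variance_map (by fun_prop) (sum_meas N).aemeasurable]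
  have e1 : (fun x => ⟪u, x⟫_ℝ) ∘ (fun x : Fin N → E => ∑ i, x i) =
      ∑ i, fun x : Fin N → E => (fun y => ⟪u, y⟫_ℝ) (x i) := by
    funext x
    simp [inner_sum]
  rw [e1, variance_sum_pi (X := fun _ => fun y : E => ⟪u, y⟫_ℝ) fun i => (h2 i).const_inner u]
  exact Finset.sum_congr rfl fun i _ => (covarianceBilin_self (h2 i) u).symm

/-- **Poincare inequality for sums of independent vectors.** -/
theorem main_ineq {N : ℕ} {μ : Fin N → Measure E} [∀ i, IsProbabilityMeasure (μ i)]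
    (h2 : ∀ i, MemLp id 2 (μ i)) {σ κ : ℝ} (hσ : 0 ≤ σ) (hκ : 0 < κ)
    (hvar : ∀ u : E, ‖u‖ = 1 → Var[fun x => ⟪u, x⟫_ℝ; sumLaw μ] ≤ σ)
    (hPP : ∀ i, PP (κ * σ) (μ i)) {f : E → ℝ} (hf : Tst f) :
    ∫ x, f x ^ 2 ∂(sumLaw μ) - (∫ x, f x ∂(sumLaw μ)) ^ 2 ≤
      (1 + Real.sqrt κ) ^ 2 * σ * ∫ x, ‖fderiv ℝ f x‖ ^ 2 ∂(sumLaw μ) := by
  have hprob := sumLaw_prob μ
  have hη : 0 < Real.sqrt κ := Real.sqrt_pos.2 hκ
  obtain ⟨η, hηd⟩ : ∃ η, η = Real.sqrt κ := ⟨_, rfl⟩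
  have hη2 : η ^ 2 = κ := by rw [hηd]; exact Real.sq_sqrt hκ.le
  rw [← hηd] at hη ⊢
  have key := RR_sum (α := 1 + η) (β := (1 + 1 / η) * (κ * σ)) (by linarith) μ
    (fun i => inferInstance) (fun i => covarianceBilin (μ i))
    (fun i u => covarianceBilin_self_nonneg u) (fun i => RR_of_PP (h2 i) hη (hPP i)) f hf
  obtain ⟨L, hL⟩ := hf.grad
  have hLg : ∀ x, ‖gr f x‖ ≤ L := fun x => by rw [gr_norm]; exact hL x
  have hL0 : 0 ≤ L := (norm_nonneg _).trans (hL 0)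
  have cg := gr_cont hf.diff
  obtain ⟨Q, hQ⟩ : ∃ Q : E →L[ℝ] E →L[ℝ] ℝ, Q = ∑ i, covarianceBilin (μ i) := ⟨_, rfl⟩
  rw [← hQ] at key
  have hQv : ∀ u, Q u u = Var[fun x => ⟪u, x⟫_ℝ; sumLaw μ] := by
    intro u
    rw [var_sumLaw μ h2, hQ]
    simp
  have hQ1 : ∀ u, Q u u ≤ σ * ‖u‖ ^ 2 := by
    intro u
    by_cases h0 : u = 0
    · simp [h0]
    · have hn : 0 < ‖u‖ := norm_pos_iff.2 h0
      have h3 := hvar (‖u‖⁻¹ • u) (by rw [norm_smul, norm_inv, norm_norm, inv_mul_cancel₀ hn.ne'])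
      rw [← hQv] at h3
      have h4 : Q (‖u‖⁻¹ • u) (‖u‖⁻¹ • u) = ‖u‖⁻¹ ^ 2 * Q u u := by
        simp only [map_smul, smul_apply, smul_eq_mul]
        ring
      rw [h4] at h3
      have h5 : Q u u = ‖u‖ ^ 2 * (‖u‖⁻¹ ^ 2 * Q u u) := by
        field_simp
      rw [h5, mul_comm σ]
      exact mul_le_mul_of_nonneg_left h3 (sq_nonneg _)
  have i1 : Integrable (fun x => ‖gr f x‖ ^ 2) (sumLaw μ) :=
    int_bc _ (cg.norm.pow 2) (B := L ^ 2) fun x => by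
      rw [norm_pow, norm_norm]; exact pow_le_pow_left₀ (norm_nonneg _) (hLg x) 2
  have h3 : ∫ x, Q (gr f x) (gr f x) ∂(sumLaw μ) ≤ σ * ∫ x, ‖gr f x‖ ^ 2 ∂(sumLaw μ) := by
    rw [← integral_const_mul]
    refine integral_mono ?_ (i1.const_mul σ) fun x => hQ1 _
    refine int_bc _ ((Q.continuous.comp cg).clm_apply cg) (B := ‖Q‖ * L * L) fun x => ?_
    calc ‖Q (gr f x) (gr f x)‖ ≤ ‖Q (gr f x)‖ * ‖gr f x‖ := (Q (gr f x)).le_opNorm _
      _ ≤ (‖Q‖ * ‖gr f x‖) * ‖gr f x‖ := mul_le_mul_of_nonneg_right (Q.le_opNorm _) (norm_nonneg _)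
      _ ≤ (‖Q‖ * L) * L := by
        have := hLg x
        gcongr
  have e1 : ∫ x, ‖fderiv ℝ f x‖ ^ 2 ∂(sumLaw μ) = ∫ x, ‖gr f x‖ ^ 2 ∂(sumLaw μ) :=
    integral_congr_ae (Eventually.of_forall fun x => by simp only [gr_norm])
  rw [e1]
  refine key.trans ?_
  have h4 : (1 + η) * ∫ x, Q (gr f x) (gr f x) ∂(sumLaw μ) ≤
      (1 + η) * (σ * ∫ x, ‖gr f x‖ ^ 2 ∂(sumLaw μ)) :=
    mul_le_mul_of_nonneg_left h3 (by linarith)
  have h5 : (1 + 1 / η) * (κ * σ) * (∫ x, ‖gr f x‖ ^ 2 ∂(sumLaw μ) -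
      ‖∫ x, gr f x ∂(sumLaw μ)‖ ^ 2) ≤
      (1 + 1 / η) * (κ * σ) * ∫ x, ‖gr f x‖ ^ 2 ∂(sumLaw μ) := by
    refine mul_le_mul_of_nonneg_left ?_ (by positivity)
    have := sq_nonneg ‖∫ x, gr f x ∂(sumLaw μ)‖
    linarith
  refine (add_le_add h4 h5).trans (le_of_eq ?_)
  have h6 : (1 + 1 / η) * (κ * σ) = (η ^ 2 + η) * σ := by
    rw [← hη2]
    field_simp
  rw [h6]
  ring

end Pool.Agent.J4H10.KC
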