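import Mathlib

/-! A linear bijection of `ℝ^m` which is a small perturbation of a linear map. -/

set_option autoImplicit false

namespace Pool.Agent.J4H10.KC

open MeasureTheory Set Filter Topology
open scoped ENNReal InnerProductSpace

/-- a linear bijection with `‖Q z‖² = ‖T z‖² + ε² ‖z‖²` -/
theorem exists_Q {m k : ℕ} (T : EuclideanSpace ℝ (Fin m) →ₗ[ℝ] EuclideanSpace ℝ (Fin k)) {ε : ℝ} (hε : 0 < ε) :
    ∃ Q : EuclideanSpace ℝ (Fin m) ≃L[ℝ] EuclideanSpace ℝ (Fin m), ∀ z, ‖Q z‖ ^ 2 = ‖T z‖ ^ 2 + ε ^ 2 * ‖z‖ ^ 2 := by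
  obtain ⟨S, hS⟩ : ∃ S : EuclideanSpace ℝ (Fin m) →ₗ[ℝ] WithLp 2 (EuclideanSpace ℝ (Fin k) × EuclideanSpace ℝ (Fin m)),
      ∀ z, S z = WithLp.toLp 2 (T z, ε • z) := by
    refine ⟨{ toFun := fun z => WithLp.toLp 2 (T z, ε • z), map_add' := ?_, map_smul' := ?_ },
      fun z => rfl⟩
    · intro x y
      rw [map_add, smul_add]
      rfl
    · intro c x
      rw [map_smul, smul_comm]
      rfl
  have hn : ∀ z, ‖S z‖ ^ 2 = ‖T z‖ ^ 2 + ε ^ 2 * ‖z‖ ^ 2 := by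
    intro z
    rw [hS, WithLp.prod_norm_sq_eq_of_L2]
    change ‖T z‖ ^ 2 + ‖ε • z‖ ^ 2 = _
    rw [norm_smul, Real.norm_eq_abs, abs_of_pos hε]
    ring
  have hinj : Function.Injective S := by
    rw [← LinearMap.ker_eq_bot, LinearMap.ker_eq_bot']
    intro z hz
    have h1 := hn z
    rw [hz, norm_zero] at h1
    have h2 : ε ^ 2 * ‖z‖ ^ 2 ≤ 0 := by
      have := sq_nonneg ‖T z‖
      linarith
    have h3 : ‖z‖ ^ 2 ≤ 0 := by
      by_contra h
      push Not at h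
      have : 0 < ε ^ 2 * ‖z‖ ^ 2 := by positivity
      linarith
    have h4 : ‖z‖ = 0 := by
      have := sq_nonneg ‖z‖
      exact pow_eq_zero_iff two_ne_zero |>.1 (le_antisymm h3 this)
    exact norm_eq_zero.1 h4
  have hfr : Module.finrank ℝ (LinearMap.range S) = m := by
    rw [← (LinearEquiv.ofInjective S hinj).finrank_eq]
    simp
  let W := (stdOrthonormalBasis ℝ (LinearMap.range S)).reindex (finCongr hfr)
  let Q0 : EuclideanSpace ℝ (Fin m) ≃ₗ[ℝ] EuclideanSpace ℝ (Fin m) :=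
    (LinearEquiv.ofInjective S hinj).trans W.repr.toLinearEquiv
  refine ⟨Q0.toContinuousLinearEquiv, fun z => ?_⟩
  have h1 : ‖Q0.toContinuousLinearEquiv z‖ = ‖S z‖ := by
    change ‖W.repr (LinearEquiv.ofInjective S hinj z)‖ = ‖S z‖
    rw [LinearIsometryEquiv.norm_map]
    rfl
  rw [h1, hn]

end Pool.Agent.J4H10.KC
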