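import Pool.Agent.J4H10.KC.Trunc
import Pool.Agent.J4H10.KC.Q
import Pool.Agent.Y506.RG.Star
import Pool.Agent.Y506.RG.Fnl
import Pool.Agent.Y506.PV.Mom
import Pool.Agent.H888R2.KT.V2

/-! The Poincare constant of an affine image of a log-concave vector is at most a constant times its
second moment. -/

set_option autoImplicit false

namespace Pool.Agent.J4H10.KC

open MeasureTheory Set Filter Topology ProbabilityTheory
open scoped ENNReal InnerProductSpace
open Pool.Agent.W695.KH (Eu)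
open Pool.Agent.Y506.RG (Adm EW VW pm pm_int pm_prob pm_integrable EW_aff EW_mono EW_add
  EW_const_mul EW_nonneg lint_w)
open Pool.Agent.Y506.PV (LCn)
open Pool.Agent.H212R2.KLS (mu)
open Pool.Agent.H888R2.KT (LC)

/-- `crude` for weights which are not normalised -/
theorem crude_EW : ∃ C : ℝ, 0 < C ∧ ∀ {m : ℕ} (w : Eu (Fin m) → ℝ), Adm w → LC w →
    ∀ σ : ℝ, 0 < σ → EW w (fun x => ‖x‖ ^ 2) ≤ σ ^ 2 → ∀ f : Eu (Fin m) → ℝ, ContDiff ℝ 1 f →
    VW w f ≤ C * σ ^ 2 * EW w fun x => ‖fderiv ℝ f x‖ ^ 2 := by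
  obtain ⟨C, hC, H⟩ := Pool.Agent.H888R2.KT.crude
  refine ⟨C, hC, fun {m} w hA hL σ hσ hm f hf => ?_⟩
  obtain ⟨c, hc⟩ : ∃ c : ℝ, c = (∫ x, w x)⁻¹ := ⟨_, rfl⟩
  have hc0 : 0 < c := by rw [hc]; exact inv_pos.2 hA.pos
  obtain ⟨r, hr⟩ : ∃ r : Eu (Fin m) → ℝ, r = fun x => c * w x := ⟨_, rfl⟩
  have e1 : mu r = pm w := by
    unfold mu pm
    have h1 : (fun x => ENNReal.ofReal (r x)) =
        (ENNReal.ofReal c) • fun x => ENNReal.ofReal (w x) := by
      funext x
      rw [hr]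
      simp only [Pi.smul_apply, smul_eq_mul]
      rw [ENNReal.ofReal_mul hc0.le]
    rw [h1, withDensity_smul _ hA.meas.ennreal_ofReal, lint_w hA, hc,
      ENNReal.ofReal_inv_of_pos hA.pos]
  have hp := pm_prob hA
  have h1 : mu r univ = 1 := by rw [e1]; exact measure_univ
  have hLr : LC r := by
    refine ⟨fun x => ?_, ?_, fun x y t ht0 ht1 => ?_, ?_, ?_, ?_⟩
    · rw [hr]; exact mul_nonneg hc0.le (hL.nonneg x)
    · rw [hr]; exact measurable_const.mul hL.meas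
    · rw [hr]
      simp only
      rw [Real.mul_rpow hc0.le (hL.nonneg x), Real.mul_rpow hc0.le (hL.nonneg y)]
      have h3 : c ^ (1 - t) * c ^ t = c := by
        rw [← Real.rpow_add hc0, sub_add_cancel, Real.rpow_one]
      calc c ^ (1 - t) * w x ^ (1 - t) * (c ^ t * w y ^ t) =
          (c ^ (1 - t) * c ^ t) * (w x ^ (1 - t) * w y ^ t) := by ring
        _ ≤ _ := by
          rw [h3]
          exact mul_le_mul_of_nonneg_left (hL.logc x y t ht0 ht1) hc0.le
    · obtain ⟨R, hR⟩ := hL.bdd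
      exact ⟨R, fun x hx => by rw [hr]; simp only; rw [hR x hx, mul_zero]⟩
    · rw [h1]; exact ENNReal.one_ne_top
    · intro h0
      rw [h0] at h1
      simp at h1
  have key := H r hLr h1 σ hσ (by rw [e1, pm_int hA]; exact hm) f hf
  rw [e1, pm_int hA, pm_int hA, pm_int hA] at key
  exact key

/-- the restriction of a weight to a ball -/
noncomputable def wb {m : ℕ} (w : Eu (Fin m) → ℝ) (n : ℕ) : Eu (Fin m) → ℝ :=
  (Metric.closedBall (0 : Eu (Fin m)) n).indicator w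

theorem wb_nonneg {m : ℕ} {w : Eu (Fin m) → ℝ} (h : ∀ x, 0 ≤ w x) (n : ℕ) (x : Eu (Fin m)) :
    0 ≤ wb w n x := indicator_nonneg (fun x _ => h x) x

theorem wb_meas {m : ℕ} {w : Eu (Fin m) → ℝ} (h : Measurable w) (n : ℕ) : Measurable (wb w n) :=
  h.indicator Metric.isClosed_closedBall.measurableSet

theorem wb_lc {m : ℕ} {w : Eu (Fin m) → ℝ} (h0 : ∀ x, 0 ≤ w x) (h : LCn w) (n : ℕ) :
    LCn (wb w n) := by
  intro x y t ht0 ht1
  unfold wb
  by_cases hx : x ∈ Metric.closedBall (0 : Eu (Fin m)) n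
  · by_cases hy : y ∈ Metric.closedBall (0 : Eu (Fin m)) n
    · have hz : (1 - t) • x + t • y ∈ Metric.closedBall (0 : Eu (Fin m)) n :=
        (convex_closedBall _ _) hx hy (by linarith) ht0.le (by ring)
      rw [indicator_of_mem hx, indicator_of_mem hy, indicator_of_mem hz]
      exact h x y t ht0 ht1
    · rw [indicator_of_notMem hy, Real.zero_rpow ht0.ne', mul_zero]
      exact indicator_nonneg (fun x _ => h0 x) _
  · rw [indicator_of_notMem hx, Real.zero_rpow (by linarith : (1 - t) ≠ 0), zero_mul]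
    exact indicator_nonneg (fun x _ => h0 x) _

theorem wb_int_lim {m : ℕ} {w : Eu (Fin m) → ℝ} (v : Eu (Fin m) → ℝ)
    (hv : Integrable fun x => v x * w x) :
    Tendsto (fun n : ℕ => ∫ x, v x * wb w n x) atTop (𝓝 (∫ x, v x * w x)) := by
  have e1 : ∀ n : ℕ, (fun x => v x * wb w n x) =
      (Metric.closedBall (0 : Eu (Fin m)) n).indicator fun x => v x * w x := by
    intro n
    funext x
    unfold wb
    by_cases hx : x ∈ Metric.closedBall (0 : Eu (Fin m)) n
    · rw [indicator_of_mem hx, indicator_of_mem hx]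
    · rw [indicator_of_notMem hx, indicator_of_notMem hx, mul_zero]
  refine tendsto_integral_of_dominated_convergence (fun x => |v x * w x|) (fun n => ?_) hv.abs
    (fun n => ?_) ?_
  · rw [e1]
    exact (hv.indicator Metric.isClosed_closedBall.measurableSet).aestronglyMeasurable
  · refine Eventually.of_forall fun x => ?_
    rw [Real.norm_eq_abs]
    unfold wb
    by_cases hx : x ∈ Metric.closedBall (0 : Eu (Fin m)) n
    · rw [indicator_of_mem hx]
    · rw [indicator_of_notMem hx, mul_zero, abs_zero]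
      exact abs_nonneg _
  · refine Eventually.of_forall fun x => ?_
    refine tendsto_const_nhds.congr' ?_
    obtain ⟨N, hN⟩ := exists_nat_ge ‖x‖
    filter_upwards [eventually_ge_atTop N] with n hn
    have hx : x ∈ Metric.closedBall (0 : Eu (Fin m)) n := by
      rw [mem_closedBall_zero_iff]
      exact hN.trans (by exact_mod_cast hn)
    unfold wb
    rw [indicator_of_mem hx]

theorem EW_lim {m : ℕ} {w : Eu (Fin m) → ℝ} (hA : Adm w) (v : Eu (Fin m) → ℝ)
    (hv : Integrable fun x => v x * w x) :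
    Tendsto (fun n : ℕ => EW (wb w n) v) atTop (𝓝 (EW w v)) := by
  have h1 := wb_int_lim v hv
  have h2 := wb_int_lim (w := w) (fun _ => 1) (by simpa using hA.one)
  simp only [one_mul] at h2
  exact h1.div h2 hA.pos.ne'

theorem wb_pos {m : ℕ} {w : Eu (Fin m) → ℝ} (hA : Adm w) :
    ∀ᶠ n : ℕ in atTop, 0 < ∫ x, wb w n x := by
  have h2 := wb_int_lim (w := w) (fun _ => 1) (by simpa using hA.one)
  simp only [one_mul] at h2
  exact h2.eventually (lt_mem_nhds hA.pos)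

/-- the estimate for the restriction to a ball -/
theorem sm_ball {C : ℝ} (hC : 0 < C) (H : ∀ {m : ℕ} (w : Eu (Fin m) → ℝ), Adm w → LC w →
    ∀ σ : ℝ, 0 < σ → EW w (fun x => ‖x‖ ^ 2) ≤ σ ^ 2 → ∀ f : Eu (Fin m) → ℝ, ContDiff ℝ 1 f →
    VW w f ≤ C * σ ^ 2 * EW w fun x => ‖fderiv ℝ f x‖ ^ 2) {m k : ℕ} {w : Eu (Fin m) → ℝ}
    (h0 : ∀ x, 0 ≤ w x) (hm : Measurable w) (hlc : LCn w) (n : ℕ) (hp : 0 < ∫ x, wb w n x)
    (T : Eu (Fin m) →ₗ[ℝ] Eu (Fin k)) (a : Eu (Fin m)) (b : Eu (Fin k)) {ε : ℝ} (hε : 0 < ε)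
    (g : Eu (Fin k) → ℝ) (hg : ContDiff ℝ 1 g) (L : ℝ) (hL : ∀ y, ‖fderiv ℝ g y‖ ≤ L) :
    VW (wb w n) (fun x => g (b + T x)) ≤
      C * (EW (wb w n) (fun x => ‖T (x - a)‖ ^ 2 + ε ^ 2 * ‖x - a‖ ^ 2) + ε ^ 2) *
        EW (wb w n) fun x => ‖fderiv ℝ g (b + T x)‖ ^ 2 := by
  obtain ⟨Q, hQ⟩ := exists_Q T hε
  obtain ⟨wR, hwR⟩ : ∃ wR, wR = wb w n := ⟨_, rfl⟩
  have r0 : ∀ x, 0 ≤ wR x := by rw [hwR]; exact wb_nonneg h0 n
  have rm : Measurable wR := by rw [hwR]; exact wb_meas hm n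
  have rl : LCn wR := by rw [hwR]; exact wb_lc h0 hlc n
  have rA : Adm wR := ⟨r0, Pool.Agent.Y506.PV.int_moment r0 rm rl (by rw [hwR]; exact hp),
    by rw [hwR]; exact hp, rm⟩
  rw [← hwR]
  -- the weight in the new coordinates
  obtain ⟨w1, hw1⟩ : ∃ w1 : Eu (Fin m) → ℝ, w1 = fun y => wR (Q.symm y + a) := ⟨_, rfl⟩
  have hw : ∀ x, wR x = 1 * w1 (Q (x - a)) := by
    intro x
    rw [hw1, one_mul]
    simp
  have hEW := fun v => EW_aff Q a 1 one_pos wR w1 hw v
  have s0 : ∀ y, 0 ≤ w1 y := fun y => by rw [hw1]; exact r0 _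
  have sm : Measurable w1 := by
    rw [hw1]
    exact rm.comp (Q.symm.continuous.measurable.add measurable_const)
  have sl : LCn w1 := by
    intro x y t ht0 ht1
    rw [hw1]
    simp only
    have e : Q.symm ((1 - t) • x + t • y) + a =
        (1 - t) • (Q.symm x + a) + t • (Q.symm y + a) := by
      rw [map_add, map_smul, map_smul, smul_add, smul_add]
      have : a = (1 - t) • a + t • a := by rw [← add_smul]; simp
      nth_rewrite 1 [this]
      abel
    rw [e]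
    exact rl _ _ t ht0 ht1
  have sp : 0 < ∫ y, w1 y := by
    obtain ⟨κ, hκ, hint⟩ := Pool.Agent.Y506.RG.int_lin Q
    have h2 : ∫ x, wR x = ∫ y, wR (y + a) := (integral_add_right_eq_self wR a).symm
    have h3 := hint w1
    have h4 : (fun y => w1 (Q y)) = fun y => wR (y + a) := by
      funext y
      rw [hw1]
      simp
    rw [h4, ← h2] at h3
    have h5 := rA.pos
    rw [h3] at h5
    exact (mul_pos_iff_of_pos_left hκ).1 h5
  have sA : Adm w1 := ⟨s0, Pool.Agent.Y506.PV.int_moment s0 sm sl sp, sp, sm⟩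
  have sL : LC w1 := by
    refine ⟨s0, sm, sl, ?_, ?_, ?_⟩
    · refine ⟨‖(Q : Eu (Fin m) →L[ℝ] Eu (Fin m))‖ * (n + ‖a‖), fun y hy => ?_⟩
      rw [hw1, hwR]
      simp only
      unfold wb
      rw [indicator_of_notMem]
      intro hmem
      rw [mem_closedBall_zero_iff] at hmem
      have h1 : ‖Q.symm y‖ ≤ n + ‖a‖ := by
        have : Q.symm y = (Q.symm y + a) - a := by abel
        rw [this]
        exact (norm_sub_le _ _).trans (add_le_add hmem le_rfl)
      have h2 : ‖y‖ ≤ ‖(Q : Eu (Fin m) →L[ℝ] Eu (Fin m))‖ * ‖Q.symm y‖ := by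
        have := (Q : Eu (Fin m) →L[ℝ] Eu (Fin m)).le_opNorm (Q.symm y)
        simpa using this
      have h3 : ‖y‖ ≤ ‖(Q : Eu (Fin m) →L[ℝ] Eu (Fin m))‖ * (n + ‖a‖) :=
        h2.trans (mul_le_mul_of_nonneg_left h1 (norm_nonneg _))
      linarith
    · unfold mu
      rw [withDensity_apply _ MeasurableSet.univ, Measure.restrict_univ, lint_w sA]
      exact ENNReal.ofReal_ne_top
    · intro hz
      have h1 : mu w1 univ = ENNReal.ofReal (∫ x, w1 x) := by
        unfold mu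
        rw [withDensity_apply _ MeasurableSet.univ, Measure.restrict_univ, lint_w sA]
      rw [hz] at h1
      simp only [Measure.coe_zero, Pi.zero_apply] at h1
      have h2 := ENNReal.ofReal_pos.2 sp
      rw [← h1] at h2
      exact lt_irrefl _ h2
  -- the function in the new coordinates
  obtain ⟨T', hT'⟩ : ∃ T' : Eu (Fin m) →L[ℝ] Eu (Fin k), ∀ x, T' x = T x :=
    ⟨LinearMap.toContinuousLinearMap T, fun x => rfl⟩
  obtain ⟨S, hS⟩ : ∃ S : Eu (Fin m) →L[ℝ] Eu (Fin k), S = T'.comp (Q.symm : Eu (Fin m) →L[ℝ] Eu (Fin m)) :=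
    ⟨_, rfl⟩
  have hSa : ∀ y, S y = T (Q.symm y) := fun y => by rw [hS, ← hT']; rfl
  have hSn : ‖S‖ ≤ 1 := by
    refine ContinuousLinearMap.opNorm_le_bound _ zero_le_one fun y => ?_
    rw [one_mul, hSa]
    have h1 := hQ (Q.symm y)
    rw [ContinuousLinearEquiv.apply_symm_apply] at h1
    have h2 : ‖T (Q.symm y)‖ ^ 2 ≤ ‖y‖ ^ 2 := by
      have : 0 ≤ ε ^ 2 * ‖Q.symm y‖ ^ 2 := by positivity
      linarith
    exact (pow_le_pow_iff_left₀ (norm_nonneg _) (norm_nonneg _) two_ne_zero).1 h2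
  obtain ⟨f, hf⟩ : ∃ f : Eu (Fin m) → ℝ, f = fun y => g (b + T a + S y) := ⟨_, rfl⟩
  have hfc : ContDiff ℝ 1 f := by
    rw [hf]
    exact hg.comp (contDiff_const.add S.contDiff)
  have hfd : ∀ y, fderiv ℝ f y = (fderiv ℝ g (b + T a + S y)).comp S := by
    intro y
    have h1 : HasFDerivAt (fun y => b + T a + S y) S y := S.hasFDerivAt.const_add _
    have h2 : HasFDerivAt g (fderiv ℝ g (b + T a + S y)) (b + T a + S y) :=
      (hg.differentiable one_ne_zero _).hasFDerivAt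
    rw [hf]
    exact (h2.comp y h1).fderiv
  have hcomp : ∀ y, b + T (Q.symm y + a) = b + T a + S y := by
    intro y
    rw [map_add, hSa]
    abel
  -- the second moment
  obtain ⟨σ, hσ⟩ : ∃ σ : ℝ, σ = Real.sqrt (EW wR (fun x => ‖T (x - a)‖ ^ 2 +
      ε ^ 2 * ‖x - a‖ ^ 2) + ε ^ 2) := ⟨_, rfl⟩
  have hM0 : 0 ≤ EW wR (fun x => ‖T (x - a)‖ ^ 2 + ε ^ 2 * ‖x - a‖ ^ 2) :=
    EW_nonneg rA _ fun x => by positivity
  have hσ2 : σ ^ 2 = EW wR (fun x => ‖T (x - a)‖ ^ 2 + ε ^ 2 * ‖x - a‖ ^ 2) + ε ^ 2 := by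
    rw [hσ]
    exact Real.sq_sqrt (by positivity)
  have hσ0 : 0 < σ := by
    rw [hσ]
    exact Real.sqrt_pos.2 (by positivity)
  have hmom : EW w1 (fun x => ‖x‖ ^ 2) ≤ σ ^ 2 := by
    have h1 : EW wR (fun x => ‖T (x - a)‖ ^ 2 + ε ^ 2 * ‖x - a‖ ^ 2) =
        EW w1 fun x => ‖x‖ ^ 2 := by
      rw [hEW]
      congr 1
      funext z
      rw [add_sub_cancel_right, ← hQ, ContinuousLinearEquiv.apply_symm_apply]
    rw [hσ2, h1]
    have : 0 < ε ^ 2 := by positivity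
    linarith
  have key := H w1 sA sL σ hσ0 hmom f hfc
  have e1 : VW w1 f = VW wR fun x => g (b + T x) := by
    unfold VW
    rw [hEW, hEW]
    simp only [hcomp]
    rw [hf]
  rw [e1, hσ2] at key
  refine key.trans (mul_le_mul_of_nonneg_left ?_ (by positivity))
  rw [hEW fun x => ‖fderiv ℝ g (b + T x)‖ ^ 2]
  simp only [hcomp]
  have cg := hg.continuous_fderiv one_ne_zero
  have cS : Continuous fun y => b + T a + S y := continuous_const.add S.continuous
  have hL0 : 0 ≤ L := (norm_nonneg _).trans (hL 0)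
  refine EW_mono sA _ _ ?_ ?_ fun y => ?_
  · refine sA.bdd _ (((hfc.continuous_fderiv one_ne_zero).norm.pow 2).measurable) (L ^ 2) fun y => ?_
    rw [abs_of_nonneg (sq_nonneg _), hfd]
    refine pow_le_pow_left₀ (norm_nonneg _) ?_ 2
    calc ‖(fderiv ℝ g (b + T a + S y)).comp S‖ ≤ ‖fderiv ℝ g (b + T a + S y)‖ * ‖S‖ :=
          ContinuousLinearMap.opNorm_comp_le _ _
      _ ≤ L * 1 := mul_le_mul (hL _) hSn (norm_nonneg _) hL0
      _ = L := mul_one L
  · refine sA.bdd _ (((cg.comp cS).norm.pow 2).measurable) (L ^ 2) fun y => ?_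
    rw [abs_of_nonneg (sq_nonneg _)]
    exact pow_le_pow_left₀ (norm_nonneg _) (hL _) 2
  · rw [hfd]
    refine pow_le_pow_left₀ (norm_nonneg _) ?_ 2
    calc ‖(fderiv ℝ g (b + T a + S y)).comp S‖ ≤ ‖fderiv ℝ g (b + T a + S y)‖ * ‖S‖ :=
          ContinuousLinearMap.opNorm_comp_le _ _
      _ ≤ ‖fderiv ℝ g (b + T a + S y)‖ * 1 := mul_le_mul_of_nonneg_left hSn (norm_nonneg _)
      _ = _ := mul_one _

/-- **the Poincare constant is at most a constant times the second moment** -/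
theorem sm : ∃ C : ℝ, 0 < C ∧ ∀ {m k : ℕ} (w : Eu (Fin m) → ℝ), (∀ x, 0 ≤ w x) → Measurable w →
    LCn w → 0 < ∫ x, w x → ∀ (T : Eu (Fin m) →ₗ[ℝ] Eu (Fin k)) (a : Eu (Fin m))
    (b : Eu (Fin k)), PP (C * EW w (fun x => ‖T (x - a)‖ ^ 2))
      (Measure.map (fun z => b + T z) (pm w)) := by
  obtain ⟨C, hC, H⟩ := crude_EW
  refine ⟨C, hC, fun {m k} w h0 hm hlc hp T a b g hg hgL => ?_⟩
  obtain ⟨L, hL⟩ := hgL
  have hL0 : 0 ≤ L := (norm_nonneg _).trans (hL 0)
  have hA : Adm w := ⟨h0, Pool.Agent.Y506.PV.int_moment h0 hm hlc hp, hp, hm⟩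
  have hpr := pm_prob hA
  obtain ⟨T', hT'⟩ : ∃ T' : Eu (Fin m) →L[ℝ] Eu (Fin k), ∀ x, T' x = T x :=
    ⟨LinearMap.toContinuousLinearMap T, fun x => rfl⟩
  have hTc : Continuous T := by
    have : (T : Eu (Fin m) → Eu (Fin k)) = T' := funext fun x => (hT' x).symm
    rw [this]; exact T'.continuous
  have cz : Continuous fun z => b + T z := continuous_const.add hTc
  have cg := hg.continuous
  have cd := hg.continuous_fderiv one_ne_zero
  have cg2 : Continuous fun y => g y ^ 2 := cg.pow 2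
  have cd2 : Continuous fun y => ‖fderiv ℝ g y‖ ^ 2 := cd.norm.pow 2
  rw [integral_map cz.measurable.aemeasurable cg2.aestronglyMeasurable,
    integral_map cz.measurable.aemeasurable cg.aestronglyMeasurable,
    integral_map cz.measurable.aemeasurable cd2.aestronglyMeasurable,
    pm_int hA, pm_int hA, pm_int hA]
  -- growth of the functions
  have hgl : ∀ y, |g y| ≤ |g 0| + L * ‖y‖ := by
    intro y
    have h1 : ‖g y - g 0‖ ≤ L * ‖y - 0‖ :=
      Convex.norm_image_sub_le_of_norm_fderiv_le (s := univ)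
        (fun y _ => hg.differentiable one_ne_zero y) (fun y _ => hL y) convex_univ (mem_univ _)
        (mem_univ _)
    rw [sub_zero, Real.norm_eq_abs] at h1
    have h3 := abs_sub_abs_le_abs_sub (g y) (g 0)
    linarith
  obtain ⟨A, hAd⟩ : ∃ A : ℝ, A = |g 0| + L * ‖b‖ + L * ‖T'‖ := ⟨_, rfl⟩
  have hA0 : 0 ≤ A := by rw [hAd]; positivity
  have hgA : ∀ x, |g (b + T x)| ≤ A * (1 + ‖x‖) := by
    intro x
    have h1 := hgl (b + T x)
    have h2 : ‖b + T x‖ ≤ ‖b‖ + ‖T'‖ * ‖x‖ := by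
      refine (norm_add_le _ _).trans (add_le_add le_rfl ?_)
      rw [← hT']
      exact T'.le_opNorm x
    have h3 : L * ‖b + T x‖ ≤ L * (‖b‖ + ‖T'‖ * ‖x‖) := mul_le_mul_of_nonneg_left h2 hL0
    have h4 : 0 ≤ (|g 0| + L * ‖b‖) * ‖x‖ := by positivity
    have h5 : 0 ≤ L * ‖T'‖ := by positivity
    rw [hAd]
    nlinarith
  have i1 : Integrable fun x => g (b + T x) * w x := by
    refine hA.of_bd _ ((cg.comp cz).measurable) (2 * A) fun x => (hgA x).trans ?_
    have : ‖x‖ ≤ 1 + ‖x‖ ^ 2 := by nlinarith [sq_nonneg (‖x‖ - 1), norm_nonneg x]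
    nlinarith [sq_nonneg ‖x‖]
  have i2 : Integrable fun x => g (b + T x) ^ 2 * w x := by
    refine hA.of_bd _ (((cg.comp cz).pow 2).measurable) (2 * A ^ 2) fun x => ?_
    rw [abs_of_nonneg (sq_nonneg _), ← sq_abs]
    refine (pow_le_pow_left₀ (abs_nonneg _) (hgA x) 2).trans ?_
    rw [mul_pow]
    have : (1 + ‖x‖) ^ 2 ≤ 2 * (1 + ‖x‖ ^ 2) := by nlinarith [sq_nonneg (‖x‖ - 1)]
    nlinarith [sq_nonneg A]
  have i3 : Integrable fun x => ‖fderiv ℝ g (b + T x)‖ ^ 2 * w x := by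
    refine hA.bdd _ (((cd.comp cz).norm.pow 2).measurable) (L ^ 2) fun x => ?_
    rw [abs_of_nonneg (sq_nonneg _)]
    exact pow_le_pow_left₀ (norm_nonneg _) (hL _) 2
  have hna : ∀ x : Eu (Fin m), ‖x - a‖ ^ 2 ≤ 2 * (1 + ‖a‖ ^ 2) * (1 + ‖x‖ ^ 2) := by
    intro x
    have h1 : ‖x - a‖ ≤ ‖x‖ + ‖a‖ := norm_sub_le _ _
    have h2 := pow_le_pow_left₀ (norm_nonneg _) h1 2
    nlinarith [sq_nonneg (‖x‖ - ‖a‖), sq_nonneg ‖x‖, sq_nonneg ‖a‖,
      mul_nonneg (sq_nonneg ‖x‖) (sq_nonneg ‖a‖)]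
  have i4 : Integrable fun x => ‖T (x - a)‖ ^ 2 * w x := by
    refine hA.of_bd _ ?_ (‖T'‖ ^ 2 * (2 * (1 + ‖a‖ ^ 2))) fun x => ?_
    · exact ((hTc.comp (continuous_id.sub continuous_const)).norm.pow 2).measurable
    · rw [abs_of_nonneg (sq_nonneg _), ← hT']
      have h1 := pow_le_pow_left₀ (norm_nonneg _) (T'.le_opNorm (x - a)) 2
      rw [mul_pow] at h1
      have h2 := mul_le_mul_of_nonneg_left (hna x) (sq_nonneg ‖T'‖)
      nlinarith
  have i5 : Integrable fun x => ‖x - a‖ ^ 2 * w x := by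
    refine hA.of_bd _ ?_ (2 * (1 + ‖a‖ ^ 2)) fun x => ?_
    · exact ((continuous_id.sub continuous_const).norm.pow 2).measurable
    · rw [abs_of_nonneg (sq_nonneg _)]
      exact hna x
  -- the limit
  obtain ⟨e, he⟩ : ∃ e : ℕ → ℝ, e = fun n : ℕ => 1 / ((n : ℝ) + 1) := ⟨_, rfl⟩
  have he0 : ∀ n, 0 < e n := fun n => by rw [he]; positivity
  have hel : Tendsto e atTop (𝓝 0) := by
    rw [he]; exact tendsto_one_div_add_atTop_nhds_zero_nat
  have key : ∀ᶠ n : ℕ in atTop, EW (wb w n) (fun x => g (b + T x) ^ 2) -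
      EW (wb w n) (fun x => g (b + T x)) ^ 2 ≤
      C * (EW (wb w n) (fun x => ‖T (x - a)‖ ^ 2) + e n ^ 2 * EW (wb w n) (fun x => ‖x - a‖ ^ 2) +
        e n ^ 2) * EW (wb w n) fun x => ‖fderiv ℝ g (b + T x)‖ ^ 2 := by
    filter_upwards [wb_pos hA] with n hn
    have h1 := sm_ball hC H h0 hm hlc n hn T a b (he0 n) g hg L hL
    have rA : Adm (wb w n) := ⟨wb_nonneg h0 n, Pool.Agent.Y506.PV.int_moment (wb_nonneg h0 n)
      (wb_meas hm n) (wb_lc h0 hlc n) hn, hn, wb_meas hm n⟩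
    have j : ∀ v : Eu (Fin m) → ℝ, Integrable (fun x => v x * w x) →
        Integrable fun x => v x * wb w n x := by
      intro v hv
      have : (fun x => v x * wb w n x) =
          (Metric.closedBall (0 : Eu (Fin m)) n).indicator fun x => v x * w x := by
        funext x
        unfold wb
        by_cases hx : x ∈ Metric.closedBall (0 : Eu (Fin m)) n
        · rw [indicator_of_mem hx, indicator_of_mem hx]
        · rw [indicator_of_notMem hx, indicator_of_notMem hx, mul_zero]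
      rw [this]
      exact hv.indicator Metric.isClosed_closedBall.measurableSet
    rw [EW_add _ _ (j _ i4) (by
      have := (j _ i5).const_mul (e n ^ 2)
      refine this.congr (Eventually.of_forall fun x => ?_)
      simp only
      ring), EW_const_mul] at h1
    exact h1
  have lim1 := (EW_lim hA _ i2).sub ((EW_lim hA _ i1).pow 2)
  have lim2 : Tendsto (fun n : ℕ => C * (EW (wb w n) (fun x => ‖T (x - a)‖ ^ 2) +
      e n ^ 2 * EW (wb w n) (fun x => ‖x - a‖ ^ 2) + e n ^ 2) *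
      EW (wb w n) fun x => ‖fderiv ℝ g (b + T x)‖ ^ 2) atTop
      (𝓝 (C * (EW w (fun x => ‖T (x - a)‖ ^ 2) + 0 ^ 2 * EW w (fun x => ‖x - a‖ ^ 2) + 0 ^ 2) *
        EW w fun x => ‖fderiv ℝ g (b + T x)‖ ^ 2)) :=
    ((((EW_lim hA _ i4).add ((hel.pow 2).mul (EW_lim hA _ i5))).add (hel.pow 2)).const_mul C).mul
      (EW_lim hA _ i3)
  have h9 := le_of_tendsto_of_tendsto lim1 lim2 key
  simpa using h9

end Pool.Agent.J4H10.KC
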