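import Pool.Agent.J4H10.KC.Pi

/-! From bounded test functions to functions with bounded gradient. -/

set_option autoImplicit false

namespace Pool.Agent.J4H10.KC

open MeasureTheory Set Filter Topology ProbabilityTheory
open scoped ENNReal InnerProductSpace

variable {E : Type} [NormedAddCommGroup E] [InnerProductSpace ℝ E] [FiniteDimensional ℝ E]
  [MeasurableSpace E] [BorelSpace E]

/-- Poincare inequality for bounded test functions -/
def PB (c : ℝ) (ν : Measure E) : Prop := ∀ f : E → ℝ, Tst f →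
    ∫ x, f x ^ 2 ∂ν - (∫ x, f x ∂ν) ^ 2 ≤ c * ∫ x, ‖fderiv ℝ f x‖ ^ 2 ∂ν

theorem arctan_le {y : ℝ} (hy : 0 ≤ y) : Real.arctan y ≤ y := by
  rcases hy.eq_or_lt with h | h
  · rw [← h, Real.arctan_zero]
  · have h1 : 0 < Real.arctan y := Real.arctan_pos.2 h
    have h2 := Real.lt_tan h1 (Real.arctan_lt_pi_div_two y)
    rw [Real.tan_arctan] at h2
    exact h2.le

theorem abs_arctan_le (y : ℝ) : |Real.arctan y| ≤ |y| := by
  rcases le_total 0 y with h | h
  · rw [abs_of_nonneg h, abs_of_nonneg (by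
      rw [← Real.arctan_zero]; exact Real.arctan_strictMono.monotone h)]
    exact arctan_le h
  · have h1 := arctan_le (y := -y) (by linarith)
    rw [Real.arctan_neg] at h1
    rw [abs_of_nonpos h, abs_of_nonpos (by
      rw [← Real.arctan_zero]; exact Real.arctan_strictMono.monotone h)]
    exact h1

theorem arctan_lim (t : ℝ) :
    Tendsto (fun n : ℕ => ((n : ℝ) + 1) * Real.arctan (t / ((n : ℝ) + 1))) atTop (𝓝 t) := by
  by_cases h0 : t = 0
  · simp [h0]
  have h1 : Tendsto (fun n : ℕ => t / ((n : ℝ) + 1)) atTop (𝓝[≠] 0) := by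
    refine tendsto_nhdsWithin_iff.2 ⟨?_, Eventually.of_forall fun n => ?_⟩
    · have := (tendsto_one_div_add_atTop_nhds_zero_nat (𝕜 := ℝ)).const_mul t
      rw [mul_zero] at this
      refine this.congr fun n => ?_
      ring
    · have : (0:ℝ) < (n : ℝ) + 1 := by positivity
      exact div_ne_zero h0 this.ne'
  have h2 := (Real.hasDerivAt_arctan 0).tendsto_slope_zero
  have h3 := (h2.comp h1).const_mul t
  simp only [ne_eq, OfNat.ofNat_ne_zero, not_false_eq_true, zero_pow, add_zero, div_one,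
    mul_one, zero_add, Real.arctan_zero, sub_zero, smul_eq_mul] at h3
  refine h3.congr fun n => ?_
  have : (0:ℝ) < (n : ℝ) + 1 := by positivity
  simp only [Function.comp]
  field_simp

theorem PP_of_PB {ν : Measure E} [IsProbabilityMeasure ν] (h2 : MemLp id 2 ν) {c : ℝ}
    (hc : 0 ≤ c) (h : PB c ν) : PP c ν := by
  intro f hf hfL
  obtain ⟨L, hL⟩ := hfL
  have cf := hf.continuous
  have hd := hf.differentiable one_ne_zero
  -- `f` is square integrable
  have hlip : ∀ x, |f x| ≤ |f 0| + L * ‖x‖ := by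
    intro x
    have h1 : ‖f x - f 0‖ ≤ L * ‖x - 0‖ :=
      Convex.norm_image_sub_le_of_norm_fderiv_le (s := univ) (fun y _ => hd y)
        (fun y _ => hL y) convex_univ (mem_univ _) (mem_univ _)
    rw [sub_zero, Real.norm_eq_abs] at h1
    have h3 := abs_sub_abs_le_abs_sub (f x) (f 0)
    linarith
  have mf : MemLp f 2 ν := by
    have hn : MemLp (fun x : E => ‖x‖) 2 ν := h2.norm
    have hn2 : MemLp (fun x : E => L * ‖x‖) 2 ν := hn.const_mul L
    have hn3 : MemLp (fun _ : E => |f 0|) 2 ν := memLp_const |f 0|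
    have m1 : MemLp (fun x : E => |f 0| + L * ‖x‖) 2 ν := hn3.add hn2
    refine m1.mono' cf.aestronglyMeasurable (Eventually.of_forall fun x => ?_)
    exact hlip x
  have if1 : Integrable f ν := mf.integrable one_le_two
  have if2 : Integrable (fun x => f x ^ 2) ν := mf.integrable_sq
  -- the truncations
  obtain ⟨F, hF⟩ : ∃ F : ℕ → E → ℝ, F = fun (n : ℕ) x =>
    ((n : ℝ) + 1) * Real.arctan (f x / ((n : ℝ) + 1)) := ⟨_, rfl⟩
  have hpos : ∀ n : ℕ, (0:ℝ) < (n : ℝ) + 1 := fun n => by positivity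
  have Fle : ∀ n x, |F n x| ≤ |f x| := by
    intro n x
    rw [hF]
    simp only
    rw [abs_mul, abs_of_pos (hpos n)]
    have h1 := abs_arctan_le (f x / ((n : ℝ) + 1))
    rw [abs_div, abs_of_pos (hpos n), le_div_iff₀ (hpos n)] at h1
    linarith
  have Fd : ∀ n x, HasFDerivAt (F n)
      ((1 / (1 + (f x / ((n : ℝ) + 1)) ^ 2)) • fderiv ℝ f x) x := by
    intro n x
    have h1 : HasFDerivAt (fun x => f x / ((n : ℝ) + 1))
        (((n : ℝ) + 1)⁻¹ • fderiv ℝ f x) x := by
      have := (hd x).hasFDerivAt.const_mul ((n : ℝ) + 1)⁻¹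
      refine this.congr_of_eventuallyEq (Eventually.of_forall fun y => ?_)
      simp only
      ring
    have h3 := (h1.arctan).const_mul ((n : ℝ) + 1)
    have e : (1 / (1 + (f x / ((n : ℝ) + 1)) ^ 2)) • fderiv ℝ f x =
        ((n : ℝ) + 1) • (1 / (1 + (f x / ((n : ℝ) + 1)) ^ 2)) • ((n : ℝ) + 1)⁻¹ • fderiv ℝ f x := by
      rw [smul_smul, smul_smul]
      congr 1
      have := hpos n
      field_simp
    rw [hF, e]
    exact h3
  have Fg : ∀ n x, ‖fderiv ℝ (F n) x‖ ≤ ‖fderiv ℝ f x‖ := by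
    intro n x
    rw [(Fd n x).fderiv, norm_smul, Real.norm_eq_abs]
    have h1 : |1 / (1 + (f x / ((n : ℝ) + 1)) ^ 2)| ≤ 1 := by
      rw [abs_of_nonneg (by positivity), div_le_one (by positivity)]
      have := sq_nonneg (f x / ((n : ℝ) + 1))
      linarith
    calc _ ≤ 1 * ‖fderiv ℝ f x‖ := mul_le_mul_of_nonneg_right h1 (norm_nonneg _)
      _ = _ := one_mul _
  have Ft : ∀ n, Tst (F n) := by
    intro n
    refine ⟨?_, ⟨((n : ℝ) + 1) * (Real.pi / 2), fun x => ?_⟩, ⟨L, fun x => (Fg n x).trans (hL x)⟩⟩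
    · rw [hF]
      simp only
      exact contDiff_const.mul ((hf.div_const _).arctan)
    · rw [hF]
      simp only
      rw [abs_mul, abs_of_pos (hpos n)]
      refine mul_le_mul_of_nonneg_left ?_ (hpos n).le
      rw [abs_le]
      exact ⟨(Real.neg_pi_div_two_lt_arctan _).le, (Real.arctan_lt_pi_div_two _).le⟩
  have cFg : Continuous fun x => ‖fderiv ℝ f x‖ ^ 2 :=
    (hf.continuous_fderiv one_ne_zero).norm.pow 2
  have ig : Integrable (fun x => ‖fderiv ℝ f x‖ ^ 2) ν :=
    int_bc ν cFg (B := L ^ 2) fun x => by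
      rw [norm_pow, norm_norm]; exact pow_le_pow_left₀ (norm_nonneg _) (hL x) 2
  have key : ∀ n, ∫ x, F n x ^ 2 ∂ν - (∫ x, F n x ∂ν) ^ 2 ≤
      c * ∫ x, ‖fderiv ℝ f x‖ ^ 2 ∂ν := by
    intro n
    refine (h (F n) (Ft n)).trans (mul_le_mul_of_nonneg_left ?_ hc)
    refine integral_mono ?_ ig fun x => ?_
    · refine int_bc ν (((Ft n).diff.continuous_fderiv one_ne_zero).norm.pow 2) (B := L ^ 2)
        fun x => ?_
      rw [norm_pow, norm_norm]
      exact pow_le_pow_left₀ (norm_nonneg _) ((Fg n x).trans (hL x)) 2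
    · exact pow_le_pow_left₀ (norm_nonneg _) (Fg n x) 2
  have l1 : Tendsto (fun n => ∫ x, F n x ∂ν) atTop (𝓝 (∫ x, f x ∂ν)) := by
    refine tendsto_integral_of_dominated_convergence (fun x => |f x|)
      (fun n => (Ft n).diff.continuous.aestronglyMeasurable) if1.abs
      (fun n => Eventually.of_forall fun x => Fle n x) (Eventually.of_forall fun x => ?_)
    rw [hF]
    exact arctan_lim (f x)
  have l2 : Tendsto (fun n => ∫ x, F n x ^ 2 ∂ν) atTop (𝓝 (∫ x, f x ^ 2 ∂ν)) := by
    refine tendsto_integral_of_dominated_convergence (fun x => f x ^ 2)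
      (fun n => ((Ft n).diff.continuous.pow 2).aestronglyMeasurable) if2
      (fun n => Eventually.of_forall fun x => ?_) (Eventually.of_forall fun x => ?_)
    · rw [norm_pow, Real.norm_eq_abs, ← sq_abs (f x)]
      exact pow_le_pow_left₀ (abs_nonneg _) (Fle n x) 2
    · have : Tendsto (fun n => F n x) atTop (𝓝 (f x)) := by
        rw [hF]
        exact arctan_lim (f x)
      exact this.pow 2
  exact le_of_tendsto (l2.sub (l1.pow 2)) (Eventually.of_forall key)

end Pool.Agent.J4H10.KC
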